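import Mathlib

/-!
Sweeping a plane layout of bars: the colour potential.

`β` is a type of bars, `own` gives the vertex of a bar, `f` its side.
-/

namespace Pool.Agent.UBV

open Classical

variable {β V : Type*}

/-- `a` and `b` are consecutive entries of `L` (in this order). -/
def Con (L : List β) (a b : β) : Prop := ∃ l₁ l₂, L = l₁ ++ a :: b :: l₂

/-- number of consecutive entries on different sides -/
def tr (f : β → Bool) : List β → ℕ
  | [] => 0
  | [_] => 0
  | a :: b :: l => (if f a = f b then 0 else 1) + tr f (b :: l)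

/-- consecutive entries have the same owner or are on different sides -/
def Leg (own : β → V) (f : β → Bool) (L : List β) : Prop :=
  ∀ a b, Con L a b → own a = own b ∨ f a ≠ f b

theorem con_cons {a b : β} {l : List β} {x y : β} :
    Con (a :: b :: l) x y ↔ (x = a ∧ y = b) ∨ Con (b :: l) x y := by
  constructor
  · rintro ⟨l₁, l₂, h⟩
    cases l₁ with
    | nil =>
      simp only [List.nil_append, List.cons.injEq] at h
      exact Or.inl ⟨h.1.symm, h.2.1.symm⟩
    | cons c l₁ =>
      simp only [List.cons_append, List.cons.injEq] at h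
      exact Or.inr ⟨l₁, l₂, h.2⟩
  · rintro (⟨rfl, rfl⟩ | ⟨l₁, l₂, h⟩)
    · exact ⟨[], l, rfl⟩
    · exact ⟨a :: l₁, l₂, by simp [h]⟩

theorem not_con_nil {x y : β} : ¬ Con ([] : List β) x y := by
  rintro ⟨l₁, l₂, h⟩
  have := congrArg List.length h
  simp at this

theorem not_con_single {a x y : β} : ¬ Con [a] x y := by
  rintro ⟨l₁, l₂, h⟩
  have := congrArg List.length h
  simp at this
  omega

theorem Con.mem_left {L : List β} {a b : β} (h : Con L a b) : a ∈ L := by
  obtain ⟨l₁, l₂, rfl⟩ := h; simp

theorem Con.mem_right {L : List β} {a b : β} (h : Con L a b) : b ∈ L := by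
  obtain ⟨l₁, l₂, rfl⟩ := h; simp

theorem Con.append_right {L : List β} {a b : β} (h : Con L a b) (M : List β) : Con (L ++ M) a b := by
  obtain ⟨l₁, l₂, rfl⟩ := h; exact ⟨l₁, l₂ ++ M, by simp⟩

theorem Con.append_left {L : List β} {a b : β} (h : Con L a b) (M : List β) : Con (M ++ L) a b := by
  obtain ⟨l₁, l₂, rfl⟩ := h; exact ⟨M ++ l₁, l₂, by simp⟩

/-- splitting consecutive pairs at a common entry -/
theorem con_split {P Q : List β} {a x y : β} (h : Con (P ++ a :: Q) x y) :
    Con (P ++ [a]) x y ∨ Con (a :: Q) x y := by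
  induction P with
  | nil => exact Or.inr h
  | cons c P ih =>
    cases P with
    | nil =>
      simp only [List.cons_append, List.nil_append] at h
      rcases con_cons.1 h with ⟨rfl, rfl⟩ | h
      · exact Or.inl ⟨[], [], rfl⟩
      · exact Or.inr h
    | cons d P =>
      simp only [List.cons_append] at h
      rcases con_cons.1 h with ⟨rfl, rfl⟩ | h
      · exact Or.inl ⟨[], P ++ [a], by simp⟩
      · rcases ih h with h | h
        · exact Or.inl (by simpa using (h.append_left [c]))
        · exact Or.inr h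

theorem con_reverse {L : List β} {a b : β} : Con L.reverse a b ↔ Con L b a := by
  have key : ∀ (L : List β) (a b : β), Con L b a → Con L.reverse a b := by
    rintro L a b ⟨l₁, l₂, rfl⟩
    exact ⟨l₂.reverse, l₁.reverse, by simp⟩
  constructor
  · intro h
    have := key _ _ _ h
    simpa using this
  · exact key L a b

theorem Leg.reverse {own : β → V} {f : β → Bool} {L : List β} (h : Leg own f L) :
    Leg own f L.reverse := by
  intro a b hab
  rcases h b a (con_reverse.1 hab) with h | h
  · exact Or.inl h.symm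
  · exact Or.inr (Ne.symm h)

theorem tr_append (f : β → Bool) (P : List β) (a : β) (Q : List β) :
    tr f (P ++ a :: Q) = tr f (P ++ [a]) + tr f (a :: Q) := by
  induction P with
  | nil => simp [tr]
  | cons c P ih =>
    cases P with
    | nil => simp [tr]
    | cons d P =>
      simp only [List.cons_append, tr] at ih ⊢
      rw [ih]; ring

theorem tr_reverse (f : β → Bool) (L : List β) : tr f L.reverse = tr f L := by
  induction L with
  | nil => simp
  | cons a L ih =>
    cases L with
    | nil => simp [tr]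
    | cons b L =>
      rw [List.reverse_cons, List.reverse_cons] at *
      rw [List.append_assoc, List.singleton_append, tr_append]
      rw [ih]
      simp only [tr]
      by_cases h : f a = f b
      · rw [if_pos h, if_pos h.symm]; ring
      · rw [if_neg h, if_neg (Ne.symm h)]; ring

/-- parity of the number of changes -/
theorem tr_parity (f : β → Bool) (l : List β) (a : β) :
    (tr f (a :: l)) % 2 = if f a = f ((a :: l).getLast (by simp)) then 0 else 1 := by
  induction l generalizing a with
  | nil => simp [tr]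
  | cons b l ih =>
    have h1 := ih b
    rw [List.getLast_cons (by simp : b :: l ≠ [])]
    simp only [tr]
    by_cases h : f a = f b
    · rw [if_pos h, Nat.zero_add, h1, h]
    · rw [if_neg h]
      by_cases h2 : f b = f ((b :: l).getLast (by simp))
      · rw [if_pos h2] at h1
        rw [if_neg (by rw [← h2]; exact h)]
        omega
      · rw [if_neg h2] at h1
        have h3 : f a = f ((b :: l).getLast (by simp)) := by
          revert h h2
          cases f a <;> cases f b <;> cases f ((b :: l).getLast (by simp)) <;> simp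
        rw [if_pos h3]
        omega

/-- walks of given length for a relation -/
def wk (R : ℕ → ℕ → Prop) : ℕ → ℕ → ℕ → Prop
  | 0, a, b => a = b
  | n + 1, a, b => ∃ c, R a c ∧ wk R n c b

theorem wk_trans {R : ℕ → ℕ → Prop} {m n a b c : ℕ} (h1 : wk R m a b) (h2 : wk R n b c) :
    wk R (m + n) a c := by
  induction m generalizing a with
  | zero => simp only [wk] at h1; subst h1; simpa using h2
  | succ m ih =>
    obtain ⟨d, hd, h⟩ := h1
    have := ih h
    rw [show m + 1 + n = (m + n) + 1 by ring]
    exact ⟨d, hd, this⟩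

theorem wk_symm {R : ℕ → ℕ → Prop} (hR : ∀ a b, R a b → R b a) {n a b : ℕ} (h : wk R n a b) :
    wk R n b a := by
  induction n generalizing a with
  | zero => exact Eq.symm h
  | succ n ih =>
    obtain ⟨d, hd, h⟩ := h
    have h1 := ih h
    have h2 : wk R 1 d a := ⟨a, hR _ _ hd, rfl⟩
    exact wk_trans h1 h2

/-- symmetric relation of a set of pairs -/
def SR (E : Finset (ℕ × ℕ)) (a b : ℕ) : Prop := (a, b) ∈ E ∨ (b, a) ∈ E

theorem SR.symm' {E : Finset (ℕ × ℕ)} (a b : ℕ) (h : SR E a b) : SR E b a := Or.symm h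

/-- colour states without the inequality -/
structure St (own : β → V) (f : β → Bool) (W : Set β) (A : Set (β × β)) (κ : β → ℕ)
    (C : Finset ℕ) (E : Finset (ℕ × ℕ)) : Prop where
  i0 : ∀ x y, own x = own y → f x = f y
  i1 : ∀ x ∈ W, κ x ∈ C
  i2 : ∀ c ∈ C, ∃ x ∈ W, κ x = c
  i3 : ∀ x ∈ W, ∀ y ∈ W, κ x = κ y → own x = own y
  i4 : ∀ p ∈ A, p.1 ∈ W ∧ p.2 ∈ W
  i5 : ∀ p ∈ A, own p.1 = own p.2 → κ p.1 = κ p.2
  i6 : ∀ p ∈ A, f p.1 = true → f p.2 = false → (κ p.1, κ p.2) ∈ E
  i7 : ∀ p ∈ A, (p.2, p.1) ∈ A
  i8 : ∀ e ∈ E, (∃ x ∈ W, κ x = e.1 ∧ f x = true) ∧ (∃ y ∈ W, κ y = e.2 ∧ f y = false)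

variable {own : β → V} {f : β → Bool}

theorem St.adj {W : Set β} {A : Set (β × β)} {κ : β → ℕ} {C : Finset ℕ} {E : Finset (ℕ × ℕ)}
    (h : St own f W A κ C E) {x y : β} (hxy : (x, y) ∈ A) (hf : f x ≠ f y) :
    SR E (κ x) (κ y) := by
  cases hx : f x
  · have hy : f y = true := by
      cases hy : f y
      · exact absurd (hx.trans hy.symm) hf
      · rfl
    exact Or.inr (h.i6 (y, x) (h.i7 _ hxy) hy hx)
  · have hy : f y = false := by
      cases hy : f y
      · rfl
      · exact absurd (hx.trans hy.symm) hf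
    exact Or.inl (h.i6 (x, y) hxy hx hy)

/-- a legal list whose consecutive pairs are recorded gives a walk of colours -/
theorem St.walk {W : Set β} {A : Set (β × β)} {κ : β → ℕ} {C : Finset ℕ} {E : Finset (ℕ × ℕ)}
    (h : St own f W A κ C E) (l : List β) (a : β) (hl : Leg own f (a :: l))
    (hA : ∀ x y, Con (a :: l) x y → (x, y) ∈ A) :
    wk (SR E) (tr f (a :: l)) (κ a) (κ ((a :: l).getLast (by simp))) := by
  induction l generalizing a with
  | nil => simp [tr, wk]
  | cons b l ih =>
    have h1 := ih b (fun x y hxy => hl x y (con_cons.2 (Or.inr hxy)))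
      (fun x y hxy => hA x y (con_cons.2 (Or.inr hxy)))
    rw [List.getLast_cons (by simp : b :: l ≠ [])]
    have hab : (a, b) ∈ A := hA a b (con_cons.2 (Or.inl ⟨rfl, rfl⟩))
    have hleg := hl a b (con_cons.2 (Or.inl ⟨rfl, rfl⟩))
    simp only [tr]
    by_cases hf : f a = f b
    · rw [if_pos hf, Nat.zero_add]
      have ho : own a = own b := by
        rcases hleg with h | h
        · exact h
        · exact absurd hf h
      have := h.i5 (a, b) hab ho
      simp only at this
      rw [this]; exact h1
    · rw [if_neg hf, Nat.add_comm]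
      exact ⟨κ b, h.adj hab hf, h1⟩

/-- all ordered pairs (both directions) of consecutive entries -/
def PS (L : List β) : Set (β × β) := {p | Con L p.1 p.2 ∨ Con L p.2 p.1}

/-- adding a fresh bar with no neighbour -/
theorem St.add_new {W : Set β} {A : Set (β × β)} {κ : β → ℕ} {C : Finset ℕ} {E : Finset (ℕ × ℕ)}
    (h : St own f W A κ C E) {s : β} (hs : s ∉ W) :
    ∃ (κ' : β → ℕ) (C' : Finset ℕ), St own f (W ∪ {s}) A κ' C' E ∧
      (∀ x ∈ W, κ' x = κ x) ∧ C'.card = C.card + 1 := by
  obtain ⟨c, hc⟩ := Infinite.exists_notMem_finset C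
  have hne : ∀ x ∈ W, x ≠ s := fun x hx hxs => hs (hxs ▸ hx)
  have hk : ∀ x ∈ W, Function.update κ s c x = κ x := fun x hx =>
    Function.update_of_ne (hne x hx) _ _
  have hks : Function.update κ s c s = c := Function.update_self _ _ _
  refine ⟨Function.update κ s c, insert c C, ⟨h.i0, ?_, ?_, ?_, ?_, ?_, ?_, ?_, ?_⟩, hk, ?_⟩
  · rintro x (hx | hx)
    · rw [hk x hx]; exact Finset.mem_insert_of_mem (h.i1 x hx)
    · rw [Set.mem_singleton_iff] at hx; subst hx; rw [hks]; exact Finset.mem_insert_self _ _
  · intro d hd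
    rcases Finset.mem_insert.1 hd with rfl | hd
    · exact ⟨s, Or.inr rfl, hks⟩
    · obtain ⟨x, hx, hxd⟩ := h.i2 d hd
      exact ⟨x, Or.inl hx, by rw [hk x hx, hxd]⟩
  · rintro x (hx | hx) y (hy | hy) hxy
    · rw [hk x hx, hk y hy] at hxy; exact h.i3 x hx y hy hxy
    · rw [Set.mem_singleton_iff] at hy; subst hy
      rw [hk x hx, hks] at hxy
      exact absurd (hxy ▸ h.i1 x hx) hc
    · rw [Set.mem_singleton_iff] at hx; subst hx
      rw [hk y hy, hks] at hxy
      exact absurd (hxy ▸ h.i1 y hy) hc
    · rw [Set.mem_singleton_iff] at hx hy; rw [hx, hy]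
  · intro p hp; exact ⟨Or.inl (h.i4 p hp).1, Or.inl (h.i4 p hp).2⟩
  · intro p hp ho; rw [hk _ (h.i4 p hp).1, hk _ (h.i4 p hp).2]; exact h.i5 p hp ho
  · intro p hp h1 h2; rw [hk _ (h.i4 p hp).1, hk _ (h.i4 p hp).2]; exact h.i6 p hp h1 h2
  · exact h.i7
  · intro e he
    obtain ⟨⟨x, hx, h1, h2⟩, ⟨y, hy, h3, h4⟩⟩ := h.i8 e he
    exact ⟨⟨x, Or.inl hx, by rw [hk x hx, h1], h2⟩, ⟨y, Or.inl hy, by rw [hk y hy, h3], h4⟩⟩
  · rw [Finset.card_insert_of_notMem hc]

/-- recording a pair of equal owner and equal colour -/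
theorem St.add_same {W : Set β} {A : Set (β × β)} {κ : β → ℕ} {C : Finset ℕ} {E : Finset (ℕ × ℕ)}
    (h : St own f W A κ C E) {a b : β} (ha : a ∈ W) (hb : b ∈ W) (hab : κ a = κ b)
    (hf : f a = f b) :
    St own f W (A ∪ {(a, b), (b, a)}) κ C E := by
  refine ⟨h.i0, h.i1, h.i2, h.i3, ?_, ?_, ?_, ?_, h.i8⟩
  · rintro p (hp | hp | hp)
    · exact h.i4 p hp
    · subst hp; exact ⟨ha, hb⟩
    · rw [Set.mem_singleton_iff] at hp; subst hp; exact ⟨hb, ha⟩
  · rintro p (hp | hp | hp) ho
    · exact h.i5 p hp ho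
    · subst hp; exact hab
    · rw [Set.mem_singleton_iff] at hp; subst hp; exact hab.symm
  · rintro p (hp | hp | hp) h1 h2
    · exact h.i6 p hp h1 h2
    · subst hp; simp only at h1 h2; rw [hf, h2] at h1; simp at h1
    · rw [Set.mem_singleton_iff] at hp; subst hp; simp only at h1 h2; rw [← hf, h2] at h1
      simp at h1
  · rintro p (hp | hp | hp)
    · exact Or.inl (h.i7 p hp)
    · subst hp; exact Or.inr (Or.inr rfl)
    · rw [Set.mem_singleton_iff] at hp; subst hp; exact Or.inr (Or.inl rfl)

/-- recording a pair on different sides -/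
theorem St.add_diff {W : Set β} {A : Set (β × β)} {κ : β → ℕ} {C : Finset ℕ} {E : Finset (ℕ × ℕ)}
    (h : St own f W A κ C E) {a b : β} (ha : a ∈ W) (hb : b ∈ W) (hf : f a ≠ f b) :
    ∃ E' : Finset (ℕ × ℕ), St own f W (A ∪ {(a, b), (b, a)}) κ C E' ∧ E ⊆ E' ∧
      SR E' (κ a) (κ b) ∧
      E'.card ≤ E.card + 1 ∧ (SR E (κ a) (κ b) → E'.card ≤ E.card) := by
  -- wlog a is the true one
  have key : ∀ a b : β, a ∈ W → b ∈ W → f a = true → f b = false →
      ∃ E' : Finset (ℕ × ℕ), St own f W (A ∪ {(a, b), (b, a)}) κ C E' ∧ E ⊆ E' ∧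
      SR E' (κ a) (κ b) ∧
      E'.card ≤ E.card + 1 ∧ (SR E (κ a) (κ b) → E'.card ≤ E.card) := by
    intro a b ha hb hfa hfb
    have hof : own a ≠ own b := fun ho => by
      have := h.i0 a b ho
      rw [hfa, hfb] at this; simp at this
    refine ⟨insert (κ a, κ b) E, ⟨h.i0, h.i1, h.i2, h.i3, ?_, ?_, ?_, ?_, ?_⟩,
      Finset.subset_insert _ _, Or.inl (Finset.mem_insert_self _ _), ?_, ?_⟩
    · rintro p (hp | hp | hp)
      · exact h.i4 p hp
      · subst hp; exact ⟨ha, hb⟩
      · rw [Set.mem_singleton_iff] at hp; subst hp; exact ⟨hb, ha⟩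
    · rintro p (hp | hp | hp) ho
      · exact h.i5 p hp ho
      · subst hp; exact absurd ho hof
      · rw [Set.mem_singleton_iff] at hp; subst hp; exact absurd ho.symm hof
    · rintro p (hp | hp | hp) h1 h2
      · exact Finset.mem_insert_of_mem (h.i6 p hp h1 h2)
      · subst hp; exact Finset.mem_insert_self _ _
      · rw [Set.mem_singleton_iff] at hp; subst hp; simp only at h1; rw [hfb] at h1; simp at h1
    · rintro p (hp | hp | hp)
      · exact Or.inl (h.i7 p hp)
      · subst hp; exact Or.inr (Or.inr rfl)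
      · rw [Set.mem_singleton_iff] at hp; subst hp; exact Or.inr (Or.inl rfl)
    · intro e he
      rcases Finset.mem_insert.1 he with rfl | he
      · exact ⟨⟨a, ha, rfl, hfa⟩, ⟨b, hb, rfl, hfb⟩⟩
      · exact h.i8 e he
    · exact Finset.card_insert_le _ _
    · intro hsr
      have hmem : (κ a, κ b) ∈ E := by
        rcases hsr with hsr | hsr
        · exact hsr
        · exfalso
          obtain ⟨⟨x, hx, h1, h2⟩, -⟩ := h.i8 _ hsr
          simp only at h1
          have h3 := h.i0 x b (h.i3 x hx b hb h1)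
          rw [h2, hfb] at h3; simp at h3
      rw [Finset.insert_eq_of_mem hmem]
  cases hfa : f a
  · have hfb : f b = true := by
      cases hfb : f b
      · exact absurd (hfa.trans hfb.symm) hf
      · rfl
    obtain ⟨E', h1, h2, h3, h4, h5⟩ := key b a hb ha hfb hfa
    refine ⟨E', ?_, h2, h3.symm', h4, fun h => h5 h.symm'⟩
    have : ({(a, b), (b, a)} : Set (β × β)) = {(b, a), (a, b)} := Set.pair_comm _ _
    rw [this]; exact h1
  · have hfb : f b = false := by
      cases hfb : f b
      · rfl
      · exact absurd (hfa.trans hfb.symm) hf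
    exact key a b ha hb hfa hfb

/-- the recolouring map -/
def rc (c₁ c₂ : ℕ) (c : ℕ) : ℕ := if c = c₁ then c₂ else c

/-- merging two colours with the same owner -/
theorem St.merge {W : Set β} {A : Set (β × β)} {κ : β → ℕ} {C : Finset ℕ} {E : Finset (ℕ × ℕ)}
    (h : St own f W A κ C E) {a b : β} (ha : a ∈ W) (hb : b ∈ W) (ho : own a = own b)
    (hne : κ a ≠ κ b) :
    ∃ (C' : Finset ℕ) (E' : Finset (ℕ × ℕ)),
      St own f W (A ∪ {(a, b), (b, a)}) (fun x => rc (κ a) (κ b) (κ x)) C' E' ∧
      C'.card + 1 = C.card ∧ E'.card ≤ E.card ∧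
      (∀ w, SR E (κ a) w → SR E w (κ b) → E'.card + 1 ≤ E.card) := by
  have hab : f a = f b := h.i0 a b ho
  have hcb : κ b ∈ C.erase (κ a) := Finset.mem_erase.2 ⟨Ne.symm hne, h.i1 b hb⟩
  have hrc : ∀ c ∈ C, rc (κ a) (κ b) c ∈ C.erase (κ a) := by
    intro c hc
    unfold rc
    split_ifs with hc1
    · exact hcb
    · exact Finset.mem_erase.2 ⟨hc1, hc⟩
  have hrca : rc (κ a) (κ b) (κ a) = κ b := if_pos rfl
  have hrcb : rc (κ a) (κ b) (κ b) = κ b := if_neg (Ne.symm hne)
  -- equality after recolouring
  have hown : ∀ x ∈ W, ∀ y ∈ W, rc (κ a) (κ b) (κ x) = rc (κ a) (κ b) (κ y) → own x = own y := by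
    intro x hx y hy hxy
    unfold rc at hxy
    split_ifs at hxy with h1 h2 h2
    · exact h.i3 x hx y hy (h1.trans h2.symm)
    · rw [h.i3 x hx a ha h1, ho]; exact h.i3 b hb y hy hxy
    · rw [h.i3 x hx b hb hxy, ← ho]; exact h.i3 a ha y hy h2.symm
    · exact h.i3 x hx y hy hxy
  refine ⟨C.erase (κ a), E.image (Prod.map (rc (κ a) (κ b)) (rc (κ a) (κ b))),
    ⟨h.i0, ?_, ?_, hown, ?_, ?_, ?_, ?_, ?_⟩, ?_, Finset.card_image_le, ?_⟩
  · intro x hx; exact hrc _ (h.i1 x hx)
  · intro c hc
    obtain ⟨hc1, hc2⟩ := Finset.mem_erase.1 hc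
    obtain ⟨x, hx, hxc⟩ := h.i2 c hc2
    refine ⟨x, hx, ?_⟩
    simp only [rc]
    rw [if_neg (by rw [hxc]; exact hc1), hxc]
  · rintro p (hp | hp | hp)
    · exact h.i4 p hp
    · subst hp; exact ⟨ha, hb⟩
    · rw [Set.mem_singleton_iff] at hp; subst hp; exact ⟨hb, ha⟩
  · rintro p (hp | hp | hp) hpo
    · show rc (κ a) (κ b) (κ p.1) = rc (κ a) (κ b) (κ p.2)
      rw [h.i5 p hp hpo]
    · subst hp; simp only; rw [hrca, hrcb]
    · rw [Set.mem_singleton_iff] at hp; subst hp; simp only; rw [hrca, hrcb]
  · rintro p (hp | hp | hp) h1 h2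
    · exact Finset.mem_image.2 ⟨_, h.i6 p hp h1 h2, rfl⟩
    · subst hp; simp only at h1 h2; rw [hab, h2] at h1; simp at h1
    · rw [Set.mem_singleton_iff] at hp; subst hp; simp only at h1 h2; rw [← hab, h2] at h1
      simp at h1
  · rintro p (hp | hp | hp)
    · exact Or.inl (h.i7 p hp)
    · subst hp; exact Or.inr (Or.inr rfl)
    · rw [Set.mem_singleton_iff] at hp; subst hp; exact Or.inr (Or.inl rfl)
  · intro e he
    obtain ⟨e', he', rfl⟩ := Finset.mem_image.1 he
    obtain ⟨⟨x, hx, h1, h2⟩, ⟨y, hy, h3, h4⟩⟩ := h.i8 e' he'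
    exact ⟨⟨x, hx, by simp [h1], h2⟩, ⟨y, hy, by simp [h3], h4⟩⟩
  · rw [Finset.card_erase_add_one (h.i1 a ha)]
  · intro w hw1 hw2
    -- the map is not injective on E
    rw [Nat.succ_le_iff]
    apply lt_of_le_of_ne Finset.card_image_le
    intro hcard
    have hinj := Finset.card_image_iff.1 hcard
    -- w is neither colour
    have hwt : ∀ z ∈ W, κ z = w → f z ≠ f a := by
      intro z hz hzw
      rcases hw1 with hw1 | hw1
      · obtain ⟨⟨x, hx, h1, h2⟩, ⟨y, hy, h3, h4⟩⟩ := h.i8 _ hw1
        simp only at h1 h3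
        have e1 := h.i0 x a (h.i3 x hx a ha h1)
        have e2 := h.i0 z y (h.i3 z hz y hy (hzw.trans h3.symm))
        rw [e2, h4, ← e1, h2]; simp
      · obtain ⟨⟨x, hx, h1, h2⟩, ⟨y, hy, h3, h4⟩⟩ := h.i8 _ hw1
        simp only at h1 h3
        have e1 := h.i0 y a (h.i3 y hy a ha h3)
        have e2 := h.i0 z x (h.i3 z hz x hx (hzw.trans h1.symm))
        rw [e2, h2, ← e1, h4]; simp
    have hwa : w ≠ κ a := fun hh => hwt a ha hh.symm rfl
    have hrw : rc (κ a) (κ b) w = w := if_neg hwa
    -- both pairs have the same orientation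
    cases hfa : f a
    · -- then (w, κ a) and (w, κ b)
      have g1 : (w, κ a) ∈ E := by
        rcases hw1 with hw1 | hw1
        · exfalso
          obtain ⟨⟨x, hx, h1, h2⟩, -⟩ := h.i8 _ hw1
          simp only at h1
          have e1 := h.i0 x a (h.i3 x hx a ha h1)
          rw [h2, hfa] at e1; simp at e1
        · exact hw1
      have g2 : (w, κ b) ∈ E := by
        rcases hw2 with hw2 | hw2
        · exact hw2
        · exfalso
          obtain ⟨⟨x, hx, h1, h2⟩, -⟩ := h.i8 _ hw2
          simp only at h1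
          have e1 := h.i0 x b (h.i3 x hx b hb h1)
          rw [h2, ← hab, hfa] at e1; simp at e1
      have := hinj g1 g2 (by simp [Prod.map, hrca, hrcb])
      simp only [Prod.mk.injEq] at this
      exact hne this.2
    · have g1 : (κ a, w) ∈ E := by
        rcases hw1 with hw1 | hw1
        · exact hw1
        · exfalso
          obtain ⟨-, ⟨x, hx, h1, h2⟩⟩ := h.i8 _ hw1
          simp only at h1
          have e1 := h.i0 x a (h.i3 x hx a ha h1)
          rw [h2, hfa] at e1; simp at e1
      have g2 : (κ b, w) ∈ E := by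
        rcases hw2 with hw2 | hw2
        · exfalso
          obtain ⟨-, ⟨x, hx, h1, h2⟩⟩ := h.i8 _ hw2
          simp only at h1
          have e1 := h.i0 x b (h.i3 x hx b hb h1)
          rw [h2, ← hab, hfa] at e1; simp at e1
        · exact hw2
      have := hinj g1 g2 (by simp [Prod.map, hrca, hrcb])
      simp only [Prod.mk.injEq] at this
      exact hne this.1

/-- closing a gap between `a` and `b` joined by a colour walk of length `d` -/
theorem St.close {W : Set β} {A : Set (β × β)} {κ : β → ℕ} {C : Finset ℕ} {E : Finset (ℕ × ℕ)}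
    (h : St own f W A κ C E) {a b : β} (ha : a ∈ W) (hb : b ∈ W)
    (hleg : own a = own b ∨ f a ≠ f b) {d : ℕ} (hd : wk (SR E) d (κ a) (κ b))
    (hpar : d % 2 = if f a = f b then 0 else 1) :
    ∃ (r : ℕ → ℕ) (C' : Finset ℕ) (E' : Finset (ℕ × ℕ)),
      St own f W (A ∪ {(a, b), (b, a)}) (fun x => r (κ x)) C' E' ∧
      4 * C.card + 2 * E'.card + (if f a = f b then 0 else 1) ≤
        4 * C'.card + 2 * E.card + d := by
  by_cases hf : f a = f b
  · rw [if_pos hf] at hpar ⊢
    have ho : own a = own b := by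
      rcases hleg with h | h
      · exact h
      · exact absurd hf h
    by_cases hk : κ a = κ b
    · exact ⟨id, C, E, h.add_same ha hb hk hf, by omega⟩
    · obtain ⟨C', E', h1, h2, h3, h4⟩ := h.merge ha hb ho hk
      refine ⟨rc (κ a) (κ b), C', E', h1, ?_⟩
      match d, hd, hpar with
      | 0, hd, _ => exact absurd hd hk
      | 1, hd, hpar => simp at hpar
      | 2, hd, _ =>
        obtain ⟨w, hw1, w', hw2, hw3⟩ := hd
        simp only [wk] at hw3
        subst hw3
        have := h4 w hw1 hw2
        omega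
      | 3, hd, hpar => simp at hpar
      | d + 4, hd, _ => omega
  · rw [if_neg hf] at hpar ⊢
    obtain ⟨E', h1, h2, h3, h4, h5⟩ := h.add_diff ha hb hf
    refine ⟨id, C, E', h1, ?_⟩
    match d, hd, hpar with
    | 0, hd, hpar => simp at hpar
    | 1, hd, _ =>
      obtain ⟨w, hw1, hw2⟩ := hd
      simp only [wk] at hw2
      subst hw2
      have := h5 hw1
      omega
    | 2, hd, hpar => simp at hpar
    | d + 3, hd, _ => omega

/-- adding a fresh bar next to a bar of the same owner -/
theorem St.attach {W : Set β} {A : Set (β × β)} {κ : β → ℕ} {C : Finset ℕ} {E : Finset (ℕ × ℕ)}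
    (h : St own f W A κ C E) {a s : β} (ha : a ∈ W) (hs : s ∉ W) (ho : own a = own s) :
    ∃ (κ' : β → ℕ), St own f (W ∪ {s}) (A ∪ {(a, s), (s, a)}) κ' C E ∧
      (∀ x ∈ W, κ' x = κ x) := by
  have hne : ∀ x ∈ W, x ≠ s := fun x hx hxs => hs (hxs ▸ hx)
  have hk : ∀ x ∈ W, Function.update κ s (κ a) x = κ x := fun x hx =>
    Function.update_of_ne (hne x hx) _ _
  have hks : Function.update κ s (κ a) s = κ a := Function.update_self _ _ _
  have h1 : St own f (W ∪ {s}) A (Function.update κ s (κ a)) C E := by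
    refine ⟨h.i0, ?_, ?_, ?_, ?_, ?_, ?_, h.i7, ?_⟩
    · rintro x (hx | hx)
      · rw [hk x hx]; exact h.i1 x hx
      · rw [Set.mem_singleton_iff] at hx; subst hx; rw [hks]; exact h.i1 a ha
    · intro d hd
      obtain ⟨x, hx, hxd⟩ := h.i2 d hd
      exact ⟨x, Or.inl hx, by rw [hk x hx, hxd]⟩
    · rintro x (hx | hx) y (hy | hy) hxy
      · rw [hk x hx, hk y hy] at hxy; exact h.i3 x hx y hy hxy
      · rw [Set.mem_singleton_iff] at hy; subst hy
        rw [hk x hx, hks] at hxy
        rw [← ho]; exact h.i3 x hx a ha hxy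
      · rw [Set.mem_singleton_iff] at hx; subst hx
        rw [hk y hy, hks] at hxy
        rw [← ho]; exact h.i3 a ha y hy hxy
      · rw [Set.mem_singleton_iff] at hx hy; rw [hx, hy]
    · intro p hp; exact ⟨Or.inl (h.i4 p hp).1, Or.inl (h.i4 p hp).2⟩
    · intro p hp ho; rw [hk _ (h.i4 p hp).1, hk _ (h.i4 p hp).2]; exact h.i5 p hp ho
    · intro p hp h1 h2; rw [hk _ (h.i4 p hp).1, hk _ (h.i4 p hp).2]; exact h.i6 p hp h1 h2
    · intro e he
      obtain ⟨⟨x, hx, h1, h2⟩, ⟨y, hy, h3, h4⟩⟩ := h.i8 e he
      exact ⟨⟨x, Or.inl hx, by rw [hk x hx, h1], h2⟩, ⟨y, Or.inl hy, by rw [hk y hy, h3], h4⟩⟩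
  exact ⟨_, h1.add_same (Or.inl ha) (Or.inr rfl) (by rw [hk a ha, hks]) (h.i0 _ _ ho), hk⟩

theorem PS_cons (a s : β) (G : List β) :
    PS (a :: s :: G) = {(a, s), (s, a)} ∪ PS (s :: G) := by
  ext ⟨x, y⟩
  simp only [PS, Set.mem_ofPred_eq, con_cons, Set.mem_union, Set.mem_insert_iff,
    Set.mem_singleton_iff, Prod.mk.injEq]
  tauto

/-- adding a fresh chain on top of `a` -/
theorem St.extend (G : List β) : ∀ {W : Set β} {A : Set (β × β)} {κ : β → ℕ} {C : Finset ℕ}
    {E : Finset (ℕ × ℕ)} (_ : St own f W A κ C E) (a : β) (_ : a ∈ W)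
    (_ : Leg own f (a :: G)) (_ : ∀ s ∈ G, s ∉ W) (_ : G.Nodup),
    ∃ (κ' : β → ℕ) (C' : Finset ℕ) (E' : Finset (ℕ × ℕ)),
      St own f (W ∪ {x | x ∈ G}) (A ∪ PS (a :: G)) κ' C' E' ∧
      (∀ x ∈ W, κ' x = κ x) ∧ E ⊆ E' ∧
      4 * C.card + 2 * E'.card + 2 * tr f (a :: G) ≤ 4 * C'.card + 2 * E.card := by
  induction G with
  | nil =>
    intro W A κ C E h a ha hl hs hn
    refine ⟨κ, C, E, ?_, fun _ _ => rfl, subset_rfl, by simp [tr]⟩
    have h1 : W ∪ {x | x ∈ ([] : List β)} = W := by simp
    have h2 : A ∪ PS [a] = A := by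
      have : PS [a] = (∅ : Set (β × β)) := by
        ext p
        simp [PS, not_con_single]
      rw [this]; simp
    rw [h1, h2]; exact h
  | cons s G ih =>
    intro W A κ C E h a ha hl hs hn
    have hleg := hl a s (con_cons.2 (Or.inl ⟨rfl, rfl⟩))
    have hsW : s ∈ W ∪ {s} := Or.inr rfl
    have haW : a ∈ W ∪ {s} := Or.inl ha
    have hl' : Leg own f (s :: G) := fun x y hxy => hl x y (con_cons.2 (Or.inr hxy))
    have hn' : G.Nodup := (List.nodup_cons.1 hn).2
    have hsG : ∀ t ∈ G, t ∉ W ∪ {s} := by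
      rintro t ht (htW | hts)
      · exact hs t (List.mem_cons_of_mem _ ht) htW
      · rw [Set.mem_singleton_iff] at hts; subst hts
        exact (List.nodup_cons.1 hn).1 ht
    have hWeq : W ∪ {s} ∪ {x | x ∈ G} = W ∪ {x | x ∈ s :: G} := by
      ext x; simp only [Set.mem_union, Set.mem_singleton_iff, Set.mem_ofPred_eq, List.mem_cons]
      tauto
    have hAeq : A ∪ {(a, s), (s, a)} ∪ PS (s :: G) = A ∪ PS (a :: s :: G) := by
      rw [PS_cons, Set.union_assoc]
    by_cases hf : f a = f s
    · have ho : own a = own s := by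
        rcases hleg with h | h
        · exact h
        · exact absurd hf h
      obtain ⟨κ₁, h1, hk1⟩ := h.attach ha (hs s (by simp)) ho
      obtain ⟨κ₂, C₂, E₂, h2, hk2, hE2, hc2⟩ := ih h1 s hsW hl' hsG hn'
      rw [hWeq, hAeq] at h2
      refine ⟨κ₂, C₂, E₂, h2, fun x hx => ?_, hE2, ?_⟩
      · rw [hk2 x (Or.inl hx), hk1 x hx]
      · simp only [tr]; rw [if_pos hf]; omega
    · obtain ⟨κ₁, C₁, h1, hk1, hc1⟩ := h.add_new (hs s (by simp))
      obtain ⟨E₁, h1', hE1, -, hc1', -⟩ := h1.add_diff haW hsW hf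
      obtain ⟨κ₂, C₂, E₂, h2, hk2, hE2, hc2⟩ := ih h1' s hsW hl' hsG hn'
      rw [hWeq, hAeq] at h2
      refine ⟨κ₂, C₂, E₂, h2, fun x hx => ?_, hE1.trans hE2, ?_⟩
      · rw [hk2 x (Or.inl hx), hk1 x hx]
      · simp only [tr]; rw [if_neg hf]; omega

/-- value 1 if the last entry is on side `true` -/
def tX (f : β → Bool) (L : List β) : ℕ := if ∃ x, L.getLast? = some x ∧ f x = true then 1 else 0

/-- value 1 if the first entry is on side `true` -/
def bX (f : β → Bool) (L : List β) : ℕ := if ∃ x, L.head? = some x ∧ f x = true then 1 else 0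

/-- reachable sweep states: bars seen, pairs seen, bars seen on top, bars seen at the bottom,
current list -/
inductive Reach (own : β → V) (f : β → Bool) :
    Set β → Set (β × β) → Set β → Set β → List β → Prop
  | start : Reach own f ∅ ∅ ∅ ∅ []
  | step {W A Tp Bt P G Q G'} : Reach own f W A Tp Bt (P ++ G ++ Q) →
      Leg own f (P ++ G' ++ Q) → G'.Nodup → (∀ s ∈ G', s ∉ W) →
      Reach own f (W ∪ {x | x ∈ G'}) (A ∪ PS (P ++ G' ++ Q))
        (Tp ∪ {x | (P ++ G' ++ Q).getLast? = some x})
        (Bt ∪ {x | (P ++ G' ++ Q).head? = some x}) (P ++ G' ++ Q)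

/-- the full invariant -/
def Inv (own : β → V) (f : β → Bool) (W : Set β) (A : Set (β × β)) (Tp Bt : Set β)
    (L : List β) : Prop :=
  ∃ (κ : β → ℕ) (C : Finset ℕ) (E : Finset (ℕ × ℕ)) (T B : Finset ℕ),
    St own f W A κ C E ∧ (∀ x ∈ Tp, x ∈ W) ∧ (∀ x ∈ Bt, x ∈ W) ∧
    (∀ x ∈ Tp, f x = true → κ x ∈ T) ∧ (∀ x ∈ Bt, f x = true → κ x ∈ B) ∧
    2 * E.card + tr f L + 2 * T.card + 2 * B.card + (if L = [] then 0 else 2) ≤
      4 * C.card + tX f L + bX f L

/-- bookkeeping facts of a state -/
structure Facts (own : β → V) (f : β → Bool) (W : Set β) (A : Set (β × β)) (Tp Bt : Set β)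
    (L : List β) : Prop where
  mem : ∀ x ∈ L, x ∈ W
  con : ∀ x y, Con L x y → (x, y) ∈ A
  last : ∀ x, L.getLast? = some x → x ∈ Tp
  head : ∀ x, L.head? = some x → x ∈ Bt
  leg : Leg own f L

theorem Facts.rev {W : Set β} {A : Set (β × β)} {Tp Bt : Set β} {L : List β}
    (h : Facts own f W A Tp Bt L) (hA : ∀ p ∈ A, (p.2, p.1) ∈ A) :
    Facts own f W A Bt Tp L.reverse := by
  refine ⟨fun x hx => h.mem x (by simpa using hx), fun x y hxy => ?_, fun x hx => ?_,
    fun x hx => ?_, h.leg.reverse⟩
  · exact hA _ (h.con y x (con_reverse.1 hxy))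
  · rw [List.getLast?_reverse] at hx; exact h.head x hx
  · rw [List.head?_reverse] at hx; exact h.last x hx

theorem tX_reverse (L : List β) : tX f L.reverse = bX f L := by
  unfold tX bX; rw [List.getLast?_reverse]

theorem bX_reverse (L : List β) : bX f L.reverse = tX f L := by
  unfold tX bX; rw [List.head?_reverse]

theorem Inv.rev {W : Set β} {A : Set (β × β)} {Tp Bt : Set β} {L : List β}
    (h : Inv own f W A Tp Bt L) : Inv own f W A Bt Tp L.reverse := by
  obtain ⟨κ, C, E, T, B, h1, h2, h3, h4, h5, h6⟩ := h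
  refine ⟨κ, C, E, B, T, h1, h3, h2, h5, h4, ?_⟩
  rw [tr_reverse, tX_reverse, bX_reverse]
  simp only [List.reverse_eq_nil_iff]
  omega

theorem Inv.symmA {W : Set β} {A : Set (β × β)} {Tp Bt : Set β} {L : List β}
    (h : Inv own f W A Tp Bt L) : ∀ p ∈ A, (p.2, p.1) ∈ A := by
  obtain ⟨κ, C, E, T, B, h1, -⟩ := h
  exact h1.i7

theorem PS_reverse (L : List β) : PS L.reverse = PS L := by
  ext p
  simp only [PS, Set.mem_ofPred_eq, con_reverse]
  tauto

theorem PS_split (P : List β) (a : β) (Q : List β) :
    PS (P ++ a :: Q) = PS (P ++ [a]) ∪ PS (a :: Q) := by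
  ext p
  simp only [PS, Set.mem_ofPred_eq, Set.mem_union]
  constructor
  · rintro (h | h)
    · rcases con_split h with h | h
      · exact Or.inl (Or.inl h)
      · exact Or.inr (Or.inl h)
    · rcases con_split h with h | h
      · exact Or.inl (Or.inr h)
      · exact Or.inr (Or.inr h)
  · have e1 : ∀ x y, Con (P ++ [a]) x y → Con (P ++ a :: Q) x y := fun x y h => by
      have := h.append_right Q
      simpa using this
    have e2 : ∀ x y, Con (a :: Q) x y → Con (P ++ a :: Q) x y := fun x y h => h.append_left P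
    rintro ((h | h) | (h | h))
    · exact Or.inl (e1 _ _ h)
    · exact Or.inr (e1 _ _ h)
    · exact Or.inl (e2 _ _ h)
    · exact Or.inr (e2 _ _ h)

theorem getLast?_append_cons (P : List β) (a : β) (G : List β) :
    (P ++ a :: G).getLast? = some ((a :: G).getLast (by simp)) := by
  rw [List.getLast?_append]
  simp [List.getLast?_eq_getLast_of_ne_nil]

theorem head?_append_cons (P : List β) (a : β) (G G' : List β) :
    (P ++ a :: G).head? = (P ++ a :: G').head? := by
  cases P <;> simp

theorem tX_append_cons (P : List β) (a : β) (G : List β) :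
    tX f (P ++ a :: G) = if f ((a :: G).getLast (by simp)) = true then 1 else 0 := by
  unfold tX
  rw [getLast?_append_cons]
  by_cases h : f ((a :: G).getLast (by simp)) = true
  · rw [if_pos ⟨_, rfl, h⟩, if_pos h]
  · rw [if_neg, if_neg h]
    rintro ⟨x, hx, hfx⟩
    simp only [Option.some.injEq] at hx
    rw [← hx] at hfx; exact h hfx

theorem bX_append_cons (P : List β) (a : β) (G G' : List β) :
    bX f (P ++ a :: G) = bX f (P ++ a :: G') := by
  unfold bX
  rw [head?_append_cons P a G G']

/-- change above the persisting bar `a` -/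
theorem inv_top {W : Set β} {A : Set (β × β)} {Tp Bt : Set β} {P G G' : List β} {a : β}
    (hI : Inv own f W A Tp Bt (P ++ a :: G)) (hF : Facts own f W A Tp Bt (P ++ a :: G))
    (hl : Leg own f (P ++ a :: G')) (hn : G'.Nodup) (hs : ∀ s ∈ G', s ∉ W) :
    Inv own f (W ∪ {x | x ∈ G'}) (A ∪ PS (P ++ a :: G'))
      (Tp ∪ {x | (P ++ a :: G').getLast? = some x})
      (Bt ∪ {x | (P ++ a :: G').head? = some x}) (P ++ a :: G') := by
  obtain ⟨κ, C, E, T, B, h, hTp, hBt, hT, hB, hineq⟩ := hI
  have haW : a ∈ W := hF.mem a (by simp)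
  have hlG' : Leg own f (a :: G') := fun x y hxy => hl x y (hxy.append_left P)
  have hlG : Leg own f (a :: G) := fun x y hxy => hF.leg x y (hxy.append_left P)
  obtain ⟨κ', C', E', h', hk, hE, hc⟩ := h.extend G' a haW hlG' hs hn
  set x := (a :: G).getLast (by simp) with hx
  set x' := (a :: G').getLast (by simp) with hx'
  have hPS : A ∪ PS (P ++ a :: G') = A ∪ PS (a :: G') := by
    rw [PS_split, ← Set.union_assoc]
    have : A ∪ PS (P ++ [a]) = A := by
      apply Set.union_eq_self_of_subset_right
      rintro p (hp | hp)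
      · have := (hp.append_right G)
        exact hF.con _ _ (by simpa using this)
      · have := (hp.append_right G)
        exact h.i7 _ (hF.con _ _ (by simpa using this))
    rw [this]
  have hw1 : wk (SR E) (tr f (a :: G)) (κ a) (κ x) :=
    h.walk G a hlG (fun u v huv => hF.con u v (huv.append_left P))
  have hw2 : wk (SR E') (tr f (a :: G')) (κ' a) (κ' x') :=
    h'.walk G' a hlG' (fun u v huv => Or.inr (Or.inl huv))
  have hp1 := tr_parity f G a
  have hp2 := tr_parity f G' a
  rw [← hx] at hp1
  rw [← hx'] at hp2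
  have hxL : (P ++ a :: G).getLast? = some x := getLast?_append_cons P a G
  have hxL' : (P ++ a :: G').getLast? = some x' := getLast?_append_cons P a G'
  have hxTp : x ∈ Tp := hF.last x hxL
  have htX : tX f (P ++ a :: G) = if f x = true then 1 else 0 := tX_append_cons P a G
  have htX' : tX f (P ++ a :: G') = if f x' = true then 1 else 0 := tX_append_cons P a G'
  have hbX : bX f (P ++ a :: G) = bX f (P ++ a :: G') := bX_append_cons P a G G'
  have htr : tr f (P ++ a :: G) = tr f (P ++ [a]) + tr f (a :: G) := tr_append f P a G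
  have htr' : tr f (P ++ a :: G') = tr f (P ++ [a]) + tr f (a :: G') := tr_append f P a G'
  have hx'W : x' ∈ W ∪ {x | x ∈ G'} := by
    have : x' ∈ a :: G' := List.getLast_mem _
    rcases List.mem_cons.1 this with h | h
    · rw [h]; exact Or.inl haW
    · exact Or.inr h
  have hne0 : ¬ (P ++ a :: G = []) := by simp
  have hne1 : ¬ (P ++ a :: G' = []) := by simp
  rw [htX, htr, if_neg hne0] at hineq
  refine ⟨κ', C', E', if f x' = true then insert (κ' x') T else T, B, ?_, ?_, ?_, ?_, ?_, ?_⟩
  · rw [hPS]; exact h'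
  · rintro y (hy | hy)
    · exact Or.inl (hTp y hy)
    · have : x' = y := by
        have h1 : (P ++ a :: G').getLast? = some y := hy
        rw [hxL'] at h1; simpa using h1
      rw [← this]; exact hx'W
  · rintro y (hy | hy)
    · exact Or.inl (hBt y hy)
    · have h1 : (P ++ a :: G').head? = some y := hy
      rw [head?_append_cons P a G' G] at h1
      exact Or.inl (hBt y (hF.head y h1))
  · rintro y (hy | hy) hfy
    · rw [hk y (hTp y hy)]
      have := hT y hy hfy
      split_ifs
      · exact Finset.mem_insert_of_mem this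
      · exact this
    · have : x' = y := by
        have h1 : (P ++ a :: G').getLast? = some y := hy
        rw [hxL'] at h1; simpa using h1
      subst this
      rw [if_pos hfy]; exact Finset.mem_insert_self _ _
  · rintro y (hy | hy) hfy
    · rw [hk y (hBt y hy)]; exact hB y hy hfy
    · have h1 : (P ++ a :: G').head? = some y := hy
      rw [head?_append_cons P a G' G] at h1
      have h2 := hF.head y h1
      rw [hk y (hBt y h2)]; exact hB y h2 hfy
  · rw [htX', htr', if_neg hne1, ← hbX]
    by_cases hfx' : f x' = true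
    · rw [if_pos hfx', if_pos hfx']
      have hTc : (insert (κ' x') T).card ≤ T.card + 1 := Finset.card_insert_le _ _
      by_cases hfx : f x = true
      · rw [if_pos hfx] at hineq
        have hpar : (tr f (a :: G) + tr f (a :: G')) % 2 = 0 := by
          rw [hfx] at hp1
          rw [hfx'] at hp2
          split_ifs at hp1 hp2 with h1 <;> omega
        by_cases hz : tr f (a :: G) + tr f (a :: G') = 0
        · have z1 : tr f (a :: G) = 0 := by omega
          have z2 : tr f (a :: G') = 0 := by omega
          rw [z1] at hw1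
          rw [z2] at hw2
          simp only [wk] at hw1 hw2
          have hmem : κ' x' ∈ T := by
            rw [← hw2, hk a haW, hw1]; exact hT x hxTp hfx
          rw [Finset.insert_eq_of_mem hmem]
          omega
        · omega
      · rw [if_neg hfx] at hineq
        have hfx0 : f x = false := by simpa using hfx
        have hpar : (tr f (a :: G) + tr f (a :: G')) % 2 = 1 := by
          rw [hfx0] at hp1
          rw [hfx'] at hp2
          cases hfa : f a <;> rw [hfa] at hp1 hp2 <;> simp at hp1 hp2 <;> omega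
        omega
    · rw [if_neg hfx', if_neg hfx']
      by_cases hfx : f x = true
      · rw [if_pos hfx] at hineq
        have hfx0 : f x' = false := by simpa using hfx'
        have hpar : (tr f (a :: G) + tr f (a :: G')) % 2 = 1 := by
          rw [hfx] at hp1
          rw [hfx0] at hp2
          cases hfa : f a <;> rw [hfa] at hp1 hp2 <;> simp at hp1 hp2 <;> omega
        omega
      · rw [if_neg hfx] at hineq
        omega

/-- change between the persisting bars `a` and `b` -/
theorem inv_mid {W : Set β} {A : Set (β × β)} {Tp Bt : Set β} {P G G' Q : List β} {a b : β}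
    (hI : Inv own f W A Tp Bt (P ++ a :: (G ++ b :: Q)))
    (hF : Facts own f W A Tp Bt (P ++ a :: (G ++ b :: Q)))
    (hl : Leg own f (P ++ a :: (G' ++ b :: Q))) (hn : G'.Nodup) (hs : ∀ s ∈ G', s ∉ W) :
    Inv own f (W ∪ {x | x ∈ G'}) (A ∪ PS (P ++ a :: (G' ++ b :: Q)))
      (Tp ∪ {x | (P ++ a :: (G' ++ b :: Q)).getLast? = some x})
      (Bt ∪ {x | (P ++ a :: (G' ++ b :: Q)).head? = some x}) (P ++ a :: (G' ++ b :: Q)) := by
  obtain ⟨κ, C, E, T, B, h, hTp, hBt, hT, hB, hineq⟩ := hI
  have haW : a ∈ W := hF.mem a (by simp)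
  have hbW : b ∈ W := hF.mem b (by simp)
  -- sublists
  have sub : ∀ (H : List β) (x y : β), Con (a :: H) x y →
      Con (P ++ a :: (H ++ b :: Q)) x y := by
    intro H x y hxy
    have := (hxy.append_right (b :: Q)).append_left P
    simpa using this
  have sub2 : ∀ (H : List β) (x y : β), Con (a :: H ++ [b]) x y →
      Con (P ++ a :: (H ++ b :: Q)) x y := by
    intro H x y hxy
    have := (hxy.append_right Q).append_left P
    simpa using this
  have hlG' : Leg own f (a :: G') := fun x y hxy => hl x y (sub G' x y hxy)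
  have hlG : Leg own f (a :: (G ++ [b])) := fun x y hxy =>
    hF.leg x y (sub2 G x y (by simpa using hxy))
  obtain ⟨κ', C', E', h', hk, hE, hc⟩ := h.extend G' a haW hlG' hs hn
  set s := (a :: G').getLast (by simp) with hsd
  have hw1 : wk (SR E) (tr f (a :: (G ++ [b]))) (κ a) (κ b) := by
    have := h.walk (G ++ [b]) a hlG
      (fun u v huv => hF.con u v (sub2 G u v (by simpa using huv)))
    simpa using this
  have hw2 : wk (SR E') (tr f (a :: G')) (κ' a) (κ' s) :=
    h'.walk G' a hlG' (fun u v huv => Or.inr (Or.inl huv))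
  have hmono : ∀ n c d, wk (SR E) n c d → wk (SR E') n c d := by
    intro n
    induction n with
    | zero => intro c d h; exact h
    | succ n ih =>
      rintro c d ⟨w, hw, h⟩
      exact ⟨w, hw.imp (fun h => hE h) (fun h => hE h), ih _ _ h⟩
  have hw3 : wk (SR E') (tr f (a :: G') + tr f (a :: (G ++ [b]))) (κ' s) (κ' b) := by
    have e1 := wk_symm SR.symm' hw2
    have e2 := hmono _ _ _ hw1
    rw [← hk a haW, ← hk b hbW] at e2
    exact wk_trans e1 e2
  have hp1 := tr_parity f (G ++ [b]) a
  have hp2 := tr_parity f G' a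
  rw [← hsd] at hp2
  have hlast : (a :: (G ++ [b])).getLast (by simp) = b := by simp
  rw [hlast] at hp1
  have hpar : (tr f (a :: G') + tr f (a :: (G ++ [b]))) % 2 = if f s = f b then 0 else 1 := by
    cases hfa : f a <;> cases hfb : f b <;> cases hfs : f s <;>
      rw [hfa] at hp1 hp2 <;> rw [hfb] at hp1 <;> rw [hfs] at hp2 <;> simp at hp1 hp2 ⊢ <;> omega
  have hsW : s ∈ W ∪ {x | x ∈ G'} := by
    have : s ∈ a :: G' := List.getLast_mem _
    rcases List.mem_cons.1 this with h | h
    · rw [h]; exact Or.inl haW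
    · exact Or.inr h
  have hsb : Con (a :: G' ++ [b]) s b := by
    obtain ⟨l, hl⟩ : ∃ l, a :: G' = l ++ [s] := ⟨(a :: G').dropLast, by
      rw [hsd]; exact (List.dropLast_append_getLast (by simp)).symm⟩
    exact ⟨l, [], by rw [hl]; simp⟩
  have hlegsb : own s = own b ∨ f s ≠ f b := hl s b (sub2 G' s b hsb)
  obtain ⟨r, C'', E'', h'', hc''⟩ := h'.close hsW (Or.inl hbW) hlegsb hw3 hpar
  -- transitions
  have htrL : tr f (P ++ a :: (G ++ b :: Q)) =
      tr f (P ++ [a]) + tr f (a :: (G ++ [b])) + tr f (b :: Q) := by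
    rw [tr_append]
    have : a :: (G ++ b :: Q) = (a :: G) ++ b :: Q := by simp
    rw [this, tr_append f (a :: G) b Q]
    simp only [List.cons_append]
    ring
  have htrL' : tr f (P ++ a :: (G' ++ b :: Q)) =
      tr f (P ++ [a]) + (tr f (a :: G') + (if f s = f b then 0 else 1)) + tr f (b :: Q) := by
    rw [tr_append]
    have e1 : a :: (G' ++ b :: Q) = (a :: G') ++ b :: Q := by simp
    rw [e1, tr_append f (a :: G') b Q]
    obtain ⟨l, hl⟩ : ∃ l, a :: G' = l ++ [s] := ⟨(a :: G').dropLast, by
      rw [hsd]; exact (List.dropLast_append_getLast (by simp)).symm⟩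
    have e2 : a :: G' ++ [b] = l ++ s :: [b] := by rw [hl]; simp
    have e3 : tr f (a :: G' ++ [b]) = tr f (a :: G') + (if f s = f b then 0 else 1) := by
      rw [e2, tr_append f l s [b], ← hl]
      simp [tr]
    rw [e3]; ring
  have hPS : A ∪ PS (P ++ a :: (G' ++ b :: Q)) = A ∪ PS (a :: G') ∪ {(s, b), (b, s)} := by
    have e1 : a :: (G' ++ b :: Q) = (a :: G') ++ b :: Q := by simp
    obtain ⟨l, hl⟩ : ∃ l, a :: G' = l ++ [s] := ⟨(a :: G').dropLast, by
      rw [hsd]; exact (List.dropLast_append_getLast (by simp)).symm⟩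
    have e2 : a :: G' ++ [b] = l ++ s :: [b] := by rw [hl]; simp
    have e3 : PS (a :: G' ++ [b]) = PS (a :: G') ∪ {(s, b), (b, s)} := by
      rw [e2, PS_split l s [b], ← hl, PS_cons]
      have : PS [b] = (∅ : Set (β × β)) := by
        ext p
        simp [PS, not_con_single]
      rw [this]; simp
    rw [PS_split P a, e1, PS_split (a :: G') b Q, e3]
    have hP : PS (P ++ [a]) ⊆ A := by
      rintro p (hp | hp)
      · have := (hp.append_right (G ++ b :: Q))
        exact hF.con _ _ (by simpa using this)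
      · have := (hp.append_right (G ++ b :: Q))
        exact h.i7 _ (hF.con _ _ (by simpa using this))
    have hQ : PS (b :: Q) ⊆ A := by
      rintro p (hp | hp)
      · have := hp.append_left (P ++ a :: G)
        exact hF.con _ _ (by simpa using this)
      · have := hp.append_left (P ++ a :: G)
        exact h.i7 _ (hF.con _ _ (by simpa using this))
    ext p
    simp only [Set.mem_union]
    constructor
    · rintro (h1 | h1 | (h1 | h1) | h1)
      · exact Or.inl (Or.inl h1)
      · exact Or.inl (Or.inl (hP h1))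
      · exact Or.inl (Or.inr h1)
      · exact Or.inr h1
      · exact Or.inl (Or.inl (hQ h1))
    · rintro ((h1 | h1) | h1)
      · exact Or.inl h1
      · exact Or.inr (Or.inr (Or.inl (Or.inl h1)))
      · exact Or.inr (Or.inr (Or.inl (Or.inr h1)))
  have hlastL : ∀ H : List β, (P ++ a :: (H ++ b :: Q)).getLast? =
      some ((b :: Q).getLast (by simp)) := by
    intro H
    have : P ++ a :: (H ++ b :: Q) = (P ++ a :: H) ++ b :: Q := by simp
    rw [this, getLast?_append_cons]
  have htX : tX f (P ++ a :: (G' ++ b :: Q)) = tX f (P ++ a :: (G ++ b :: Q)) := by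
    unfold tX; rw [hlastL, hlastL]
  have hbX : bX f (P ++ a :: (G' ++ b :: Q)) = bX f (P ++ a :: (G ++ b :: Q)) :=
    bX_append_cons P a _ _
  have hne0 : ¬ (P ++ a :: (G ++ b :: Q) = []) := by simp
  have hne1 : ¬ (P ++ a :: (G' ++ b :: Q) = []) := by simp
  rw [htrL, if_neg hne0] at hineq
  have hTi : (T.image r).card ≤ T.card := Finset.card_image_le
  have hBi : (B.image r).card ≤ B.card := Finset.card_image_le
  refine ⟨fun x => r (κ' x), C'', E'', T.image r, B.image r, ?_, ?_, ?_, ?_, ?_, ?_⟩
  · rw [hPS]; exact h''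
  · rintro y (hy | hy)
    · exact Or.inl (hTp y hy)
    · have h1 : (P ++ a :: (G' ++ b :: Q)).getLast? = some y := hy
      rw [hlastL, ← hlastL G] at h1
      exact Or.inl (hTp y (hF.last y h1))
  · rintro y (hy | hy)
    · exact Or.inl (hBt y hy)
    · have h1 : (P ++ a :: (G' ++ b :: Q)).head? = some y := hy
      rw [head?_append_cons P a _ (G ++ b :: Q)] at h1
      exact Or.inl (hBt y (hF.head y h1))
  · intro y hy hfy
    have hy' : y ∈ Tp := by
      rcases hy with hy | hy
      · exact hy
      · have h1 : (P ++ a :: (G' ++ b :: Q)).getLast? = some y := hy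
        rw [hlastL, ← hlastL G] at h1
        exact hF.last y h1
    simp only
    rw [hk y (hTp y hy')]
    exact Finset.mem_image_of_mem _ (hT y hy' hfy)
  · intro y hy hfy
    have hy' : y ∈ Bt := by
      rcases hy with hy | hy
      · exact hy
      · have h1 : (P ++ a :: (G' ++ b :: Q)).head? = some y := hy
        rw [head?_append_cons P a _ (G ++ b :: Q)] at h1
        exact hF.head y h1
    simp only
    rw [hk y (hBt y hy')]
    exact Finset.mem_image_of_mem _ (hB y hy' hfy)
  · rw [htrL', if_neg hne1, htX, hbX]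
    omega

/-- everything is replaced -/
theorem inv_all {W : Set β} {A : Set (β × β)} {Tp Bt : Set β} {L G' : List β}
    (hI : Inv own f W A Tp Bt L) (hl : Leg own f G') (hn : G'.Nodup) (hs : ∀ s ∈ G', s ∉ W) :
    Inv own f (W ∪ {x | x ∈ G'}) (A ∪ PS G')
      (Tp ∪ {x | G'.getLast? = some x}) (Bt ∪ {x | G'.head? = some x}) G' := by
  obtain ⟨κ, C, E, T, B, h, hTp, hBt, hT, hB, hineq⟩ := hI
  have hold : 2 * E.card + 2 * T.card + 2 * B.card ≤ 4 * C.card := by
    have h1 : tX f L ≤ 1 := by unfold tX; split_ifs <;> simp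
    have h2 : bX f L ≤ 1 := by unfold bX; split_ifs <;> simp
    by_cases hL : L = []
    · subst hL
      have h3 : tX f ([] : List β) = 0 := by unfold tX; simp
      have h4 : bX f ([] : List β) = 0 := by unfold bX; simp
      rw [if_pos rfl] at hineq
      omega
    · rw [if_neg hL] at hineq
      omega
  cases G' with
  | nil =>
    refine ⟨κ, C, E, T, B, ?_, ?_, ?_, ?_, ?_, ?_⟩
    · have e1 : W ∪ {x | x ∈ ([] : List β)} = W := by simp
      have e2 : PS ([] : List β) = ∅ := by
        ext p
        simp [PS, not_con_nil]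
      rw [e1, e2, Set.union_empty]; exact h
    · rintro y (hy | hy)
      · exact Or.inl (hTp y hy)
      · simp at hy
    · rintro y (hy | hy)
      · exact Or.inl (hBt y hy)
      · simp at hy
    · rintro y (hy | hy)
      · exact hT y hy
      · simp at hy
    · rintro y (hy | hy)
      · exact hB y hy
      · simp at hy
    · have h3 : tX f ([] : List β) = 0 := by unfold tX; simp
      have h4 : bX f ([] : List β) = 0 := by unfold bX; simp
      rw [h3, h4, if_pos rfl]
      simp only [tr]
      omega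
  | cons s G =>
    obtain ⟨κ₁, C₁, h1, hk1, hc1⟩ := h.add_new (hs s (by simp))
    have hsG : ∀ t ∈ G, t ∉ W ∪ {s} := by
      rintro t ht (htW | hts)
      · exact hs t (List.mem_cons_of_mem _ ht) htW
      · rw [Set.mem_singleton_iff] at hts; subst hts
        exact (List.nodup_cons.1 hn).1 ht
    obtain ⟨κ₂, C₂, E₂, h2, hk2, hE2, hc2⟩ :=
      h1.extend G s (Or.inr rfl) hl hsG (List.nodup_cons.1 hn).2
    have hWeq : W ∪ {s} ∪ {x | x ∈ G} = W ∪ {x | x ∈ s :: G} := by
      ext x; simp only [Set.mem_union, Set.mem_singleton_iff, Set.mem_ofPred_eq, List.mem_cons]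
      tauto
    rw [hWeq] at h2
    have hkk : ∀ x ∈ W, κ₂ x = κ x := fun x hx => by rw [hk2 x (Or.inl hx), hk1 x hx]
    set x' := (s :: G).getLast (by simp) with hx'
    have hxL' : (s :: G).getLast? = some x' := List.getLast?_eq_getLast_of_ne_nil _
    have hx'm : x' ∈ s :: G := List.getLast_mem _
    have htX : tX f (s :: G) = if f x' = true then 1 else 0 := tX_append_cons [] s G
    have hbX : bX f (s :: G) = if f s = true then 1 else 0 := by
      unfold bX
      simp
    have hT' : (if f x' = true then insert (κ₂ x') T else T).card ≤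
        T.card + (if f x' = true then 1 else 0) := by
      split_ifs
      · exact Finset.card_insert_le _ _
      · simp
    have hB' : (if f s = true then insert (κ₂ s) B else B).card ≤
        B.card + (if f s = true then 1 else 0) := by
      split_ifs
      · exact Finset.card_insert_le _ _
      · simp
    refine ⟨κ₂, C₂, E₂, if f x' = true then insert (κ₂ x') T else T,
      if f s = true then insert (κ₂ s) B else B, h2, ?_, ?_, ?_, ?_, ?_⟩
    · rintro y (hy | hy)
      · exact Or.inl (hTp y hy)
      · have : x' = y := by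
          have h1 : (s :: G).getLast? = some y := hy
          rw [hxL'] at h1; simpa using h1
        rw [← this]; exact Or.inr hx'm
    · rintro y (hy | hy)
      · exact Or.inl (hBt y hy)
      · have : s = y := by
          have h1 : (s :: G).head? = some y := hy
          simpa using h1
        rw [← this]; exact Or.inr (by simp)
    · rintro y (hy | hy) hfy
      · rw [hkk y (hTp y hy)]
        have := hT y hy hfy
        split_ifs
        · exact Finset.mem_insert_of_mem this
        · exact this
      · have : x' = y := by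
          have h1 : (s :: G).getLast? = some y := hy
          rw [hxL'] at h1; simpa using h1
        subst this
        rw [if_pos hfy]; exact Finset.mem_insert_self _ _
    · rintro y (hy | hy) hfy
      · rw [hkk y (hBt y hy)]
        have := hB y hy hfy
        split_ifs
        · exact Finset.mem_insert_of_mem this
        · exact this
      · have : s = y := by
          have h1 : (s :: G).head? = some y := hy
          simpa using h1
        subst this
        rw [if_pos hfy]; exact Finset.mem_insert_self _ _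
    · have hne1 : ¬ (s :: G = []) := by simp
      rw [htX, hbX, if_neg hne1]
      have h5 : (if f x' = true then 1 else 0) ≤ 1 := by split_ifs <;> simp
      have h6 : (if f s = true then 1 else 0) ≤ 1 := by split_ifs <;> simp
      omega

theorem Reach.facts {W : Set β} {A : Set (β × β)} {Tp Bt : Set β} {L : List β}
    (h : Reach own f W A Tp Bt L) : Facts own f W A Tp Bt L := by
  induction h with
  | start =>
    exact ⟨by simp, fun x y h => absurd h not_con_nil, by simp, by simp,
      fun x y h => absurd h not_con_nil⟩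
  | @step W A Tp Bt P G Q G' h hl hn hs ih =>
    refine ⟨?_, fun x y h => Or.inr (Or.inl h), fun x h => Or.inr h, fun x h => Or.inr h, hl⟩
    intro x hx
    rcases List.mem_append.1 hx with hx | hx
    · rcases List.mem_append.1 hx with hx | hx
      · exact Or.inl (ih.mem x (by simp [hx]))
      · exact Or.inr hx
    · exact Or.inl (ih.mem x (by simp [hx]))

theorem Reach.inv {W : Set β} {A : Set (β × β)} {Tp Bt : Set β} {L : List β}
    (h0 : ∀ x y, own x = own y → f x = f y)
    (h : Reach own f W A Tp Bt L) : Inv own f W A Tp Bt L := by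
  induction h with
  | start =>
    refine ⟨fun _ => 0, ∅, ∅, ∅, ∅, ⟨h0, by simp, by simp, by simp, by simp, by simp, by simp,
      by simp, by simp⟩, by simp, by simp, by simp, by simp, ?_⟩
    simp [tr]
  | @step W A Tp Bt P G Q G' h hl hn hs ih =>
    have hF := h.facts
    rcases List.eq_nil_or_concat' P with rfl | ⟨P', a, rfl⟩
    · cases Q with
      | nil =>
        have e1 : ([] : List β) ++ G' ++ [] = G' := by simp
        rw [e1] at hl ⊢
        exact inv_all ih hl hn hs
      | cons b Q =>
        -- reversed top change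
        have hAs := ih.symmA
        have ih' := ih.rev
        have hF' := hF.rev hAs
        have e1 : (([] : List β) ++ G ++ b :: Q).reverse = Q.reverse ++ b :: G.reverse := by simp
        have e2 : (([] : List β) ++ G' ++ b :: Q).reverse = Q.reverse ++ b :: G'.reverse := by simp
        have hl' := hl.reverse
        rw [e1] at ih' hF'
        rw [e2] at hl'
        have := inv_top ih' hF' hl' (List.nodup_reverse.2 hn)
          (fun s hs' => hs s (by simpa using hs'))
        rw [← e2] at this
        have h3 := this.rev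
        rw [List.reverse_reverse] at h3
        have e3 : {x | x ∈ G'.reverse} = {x | x ∈ G'} := by ext x; simp
        have e4 : {x | (([] : List β) ++ G' ++ b :: Q).reverse.getLast? = some x} =
            {x | (([] : List β) ++ G' ++ b :: Q).head? = some x} := by
          ext x; rw [List.getLast?_reverse]
        have e5 : {x | (([] : List β) ++ G' ++ b :: Q).reverse.head? = some x} =
            {x | (([] : List β) ++ G' ++ b :: Q).getLast? = some x} := by
          ext x; rw [List.head?_reverse]
        rw [e3, e4, e5, PS_reverse] at h3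
        exact h3
    · cases Q with
      | nil =>
        have e1 : P' ++ [a] ++ G ++ [] = P' ++ a :: G := by simp
        have e2 : P' ++ [a] ++ G' ++ [] = P' ++ a :: G' := by simp
        rw [e1] at ih hF
        rw [e2] at hl ⊢
        exact inv_top ih hF hl hn hs
      | cons b Q =>
        have e1 : P' ++ [a] ++ G ++ b :: Q = P' ++ a :: (G ++ b :: Q) := by simp
        have e2 : P' ++ [a] ++ G' ++ b :: Q = P' ++ a :: (G' ++ b :: Q) := by simp
        rw [e1] at ih hF
        rw [e2] at hl ⊢
        exact inv_mid ih hF hl hn hs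

end Pool.Agent.UBV
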