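import Mathlib
import Pool.Agent.UBV.Sweep

/-!
The sweep of a finite family of pairwise disjoint unit bars.
-/

namespace Pool.Agent.UBV

open Classical

variable {β V : Type*} {own : β → V} {f : β → Bool}

/-- several gaps may change at the same time -/
theorem Reach.many (hgt : β → ℝ) (n : ℕ) : ∀ (W : Set β) (A : Set (β × β)) (Tp Bt : Set β)
    (P R R' : List β), R.length + R'.length ≤ n → Reach own f W A Tp Bt (P ++ R) →
    (P ++ R).Pairwise (fun x y => hgt x < hgt y) →
    (P ++ R').Pairwise (fun x y => hgt x < hgt y) →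
    Leg own f (P ++ R') → (∀ x ∈ R', x ∉ R → x ∉ W) →
    ∃ (A' : Set (β × β)) (Tp' Bt' : Set β),
      Reach own f (W ∪ {x | x ∈ R'}) A' Tp' Bt' (P ++ R') ∧ A ⊆ A' ∧ Tp ⊆ Tp' ∧ Bt ⊆ Bt' := by
  induction n with
  | zero =>
    intro W A Tp Bt P R R' hn hr hs hs' hl hfr
    have h1 : R = [] := by
      apply List.eq_nil_of_length_eq_zero; omega
    have h2 : R' = [] := by
      apply List.eq_nil_of_length_eq_zero; omega
    subst h1; subst h2
    refine ⟨A, Tp, Bt, ?_, subset_rfl, subset_rfl, subset_rfl⟩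
    have e1 : W ∪ {x | x ∈ ([] : List β)} = W := by simp
    rw [e1]; exact hr
  | succ n ih =>
    intro W A Tp Bt P R R' hn hr hs hs' hl hfr
    have hnd' : R'.Nodup := by
      have h1 := (List.pairwise_append.1 hs').2.1
      exact h1.imp (fun h => fun h2 => by subst h2; exact lt_irrefl _ h)
    by_cases hcom : ∃ m ∈ R', m ∈ R
    · -- first common entry of R'
      obtain ⟨G', m, R1', hR', hmR, hG'⟩ : ∃ G' m R1', R' = G' ++ m :: R1' ∧ m ∈ R ∧
          ∀ x ∈ G', x ∉ R := by
        clear hn hr hs hs' hl hfr hnd' ih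
        induction R' with
        | nil => obtain ⟨m, hm, -⟩ := hcom; simp at hm
        | cons c R' ih2 =>
          by_cases hc : c ∈ R
          · exact ⟨[], c, R', rfl, hc, by simp⟩
          · have : ∃ m ∈ R', m ∈ R := by
              obtain ⟨m, hm, hmR⟩ := hcom
              rcases List.mem_cons.1 hm with rfl | hm
              · exact absurd hmR hc
              · exact ⟨m, hm, hmR⟩
            obtain ⟨G', m, R1', h1, h2, h3⟩ := ih2 this
            refine ⟨c :: G', m, R1', by rw [h1]; simp, h2, ?_⟩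
            intro x hx
            rcases List.mem_cons.1 hx with rfl | hx
            · exact hc
            · exact h3 x hx
      obtain ⟨G, R1, hR⟩ := List.append_of_mem hmR
      subst hR' hR
      -- orders
      have hsR := (List.pairwise_append.1 hs)
      have hsR' := (List.pairwise_append.1 hs')
      have hGm := (List.pairwise_append.1 hsR.2.1)
      have hGm' := (List.pairwise_append.1 hsR'.2.1)
      have hmR1 := List.pairwise_cons.1 hGm.2.1
      have hmR1' := List.pairwise_cons.1 hGm'.2.1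
      have hF := hr.facts
      have hr' : Reach own f W A Tp Bt (P ++ G ++ (m :: R1)) := by
        rw [List.append_assoc]; exact hr
      have hleg1 : Leg own f (P ++ G' ++ (m :: R1)) := by
        intro x y hxy
        rcases con_split hxy with h | h
        · apply hl x y
          have := h.append_right R1'
          simpa using this
        · apply hF.leg x y
          have := h.append_left (P ++ G)
          simpa using this
      have hndG' : G'.Nodup := (List.nodup_append.1 hnd').1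
      have hr1 := Reach.step hr' hleg1 hndG' (fun s hs0 => hfr s (by simp [hs0]) (hG' s hs0))
      have e1 : P ++ G' ++ (m :: R1) = (P ++ G' ++ [m]) ++ R1 := by simp
      have e2 : P ++ (G' ++ m :: R1') = (P ++ G' ++ [m]) ++ R1' := by simp
      rw [e1] at hr1
      have hlen : R1.length + R1'.length ≤ n := by
        simp at hn; omega
      have hmW : m ∈ W := hF.mem m (by simp)
      have hs1 : ((P ++ G' ++ [m]) ++ R1).Pairwise (fun x y => hgt x < hgt y) := by
        rw [List.pairwise_append]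
        have h3 : (P ++ G' ++ [m]).Pairwise (fun x y => hgt x < hgt y) := by
          rw [e2] at hs'
          exact (List.pairwise_append.1 hs').1
        refine ⟨h3, hmR1.2, ?_⟩
        intro x hx y hy
        have hmy : hgt m < hgt y := hmR1.1 y hy
        simp only [List.mem_append, List.mem_singleton] at hx
        rcases hx with (hx | hx) | hx
        · exact hsR.2.2 x hx y (by simp [hy])
        · exact lt_trans (hGm'.2.2 x hx m (by simp)) hmy
        · rw [hx]; exact hmy
      have hs1' : ((P ++ G' ++ [m]) ++ R1').Pairwise (fun x y => hgt x < hgt y) := by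
        rw [← e2]; exact hs'
      have hl1' : Leg own f ((P ++ G' ++ [m]) ++ R1') := by rw [← e2]; exact hl
      have hfr1 : ∀ x ∈ R1', x ∉ R1 → x ∉ W ∪ {x | x ∈ G'} := by
        rintro x hx hxR1 (hxW | hxG')
        · have hmx : hgt m < hgt x := hmR1'.1 x hx
          apply hfr x (by simp [hx]) _ hxW
          intro hxR
          simp only [List.mem_append, List.mem_cons] at hxR
          rcases hxR with h | h | h
          · exact absurd (hGm.2.2 x h m (by simp)) (not_lt.2 hmx.le)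
          · rw [h] at hmx; exact lt_irrefl _ hmx
          · exact hxR1 h
        · have hmx : hgt m < hgt x := hmR1'.1 x hx
          exact absurd (hGm'.2.2 x hxG' m (by simp)) (not_lt.2 hmx.le)
      obtain ⟨A', Tp', Bt', h1, h2, h3, h4⟩ := ih _ _ _ _ _ _ _ hlen hr1 hs1 hs1' hl1' hfr1
      refine ⟨A', Tp', Bt', ?_, fun x hx => h2 (Or.inl hx), fun x hx => h3 (Or.inl hx),
        fun x hx => h4 (Or.inl hx)⟩
      have e3 : W ∪ {x | x ∈ G'} ∪ {x | x ∈ R1'} = W ∪ {x | x ∈ G' ++ m :: R1'} := by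
        ext x
        simp only [Set.mem_union, Set.mem_ofPred_eq, List.mem_append, List.mem_cons]
        constructor
        · tauto
        · rintro (h | h | h | h)
          · exact Or.inl (Or.inl h)
          · exact Or.inl (Or.inr h)
          · rw [h]; exact Or.inl (Or.inl hmW)
          · exact Or.inr h
      rw [e3, ← e2] at h1
      exact h1
    · push Not at hcom
      have hr' : Reach own f W A Tp Bt (P ++ R ++ []) := by simpa using hr
      have hl' : Leg own f (P ++ R' ++ []) := by simpa using hl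
      have := Reach.step hr' hl' hnd' (fun s hs0 => hfr s hs0 (hcom s hs0))
      rw [List.append_nil] at this
      exact ⟨_, _, _, this, fun x hx => Or.inl hx, fun x hx => Or.inl hx, fun x hx => Or.inl hx⟩

/-- the closed horizontal unit segment with left end point `p` -/
def seg (p : ℝ × ℝ) : Set (ℝ × ℝ) := {z | p.1 ≤ z.1 ∧ z.1 ≤ p.1 + 1 ∧ z.2 = p.2}

/-- the bars `p` and `q` are joined by a vertical channel `[a,b] × [heights]` of positive width
that meets no other bar of the family `S` -/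
def Sees (S : Set (ℝ × ℝ)) (p q : ℝ × ℝ) : Prop :=
  ∃ a b : ℝ, a < b ∧ Set.Icc a b ⊆ Set.Icc p.1 (p.1 + 1) ∧ Set.Icc a b ⊆ Set.Icc q.1 (q.1 + 1) ∧
    ∀ r ∈ S, r ≠ p → r ≠ q →
      Disjoint (seg r) (Set.Icc a b ×ˢ Set.Icc (min p.2 q.2) (max p.2 q.2))

/-- the bars of `S` met by the vertical line just to the right of `c`, from bottom to top -/
noncomputable def cur (S : Finset (ℝ × ℝ)) (c : ℝ) : List (ℝ × ℝ) :=
  (S.filter (fun p => p.1 ≤ c ∧ c < p.1 + 1)).toList.insertionSort (fun p q => p.2 ≤ q.2)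

theorem mem_cur {S : Finset (ℝ × ℝ)} {c : ℝ} {p : ℝ × ℝ} :
    p ∈ cur S c ↔ p ∈ S ∧ p.1 ≤ c ∧ c < p.1 + 1 := by
  unfold cur
  rw [List.mem_insertionSort, Finset.mem_toList, Finset.mem_filter]

/-- pairwise disjoint family -/
def PD (S : Finset (ℝ × ℝ)) : Prop := ∀ p ∈ S, ∀ q ∈ S, p ≠ q → Disjoint (seg p) (seg q)

theorem cur_sorted {S : Finset (ℝ × ℝ)} (hS : PD S) (c : ℝ) :
    (cur S c).Pairwise (fun p q => p.2 < q.2) := by
  have h1 : (cur S c).Pairwise (fun p q => p.2 ≤ q.2) := by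
    unfold cur
    have : Std.Total (fun p q : ℝ × ℝ => p.2 ≤ q.2) := ⟨fun a b => le_total _ _⟩
    have : IsTrans (ℝ × ℝ) (fun p q => p.2 ≤ q.2) := ⟨fun a b c h1 h2 => le_trans h1 h2⟩
    exact List.pairwise_insertionSort _ _
  have h2 : (cur S c).Nodup := by
    unfold cur
    rw [(List.perm_insertionSort _ _).nodup_iff]
    exact Finset.nodup_toList _
  have h3 := h1.and h2
  refine h3.imp_of_mem ?_
  intro p q hp hq ⟨hle, hne⟩
  rcases lt_or_eq_of_le hle with h | h
  · exact h
  · exfalso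
    rw [mem_cur] at hp hq
    have := hS p hp.1 q hq.1 hne
    rw [Set.disjoint_left] at this
    exact this (a := (c, p.2)) ⟨hp.2.1, hp.2.2.le, rfl⟩ ⟨hq.2.1, hq.2.2.le, h⟩

theorem con_of_sorted {L : List (ℝ × ℝ)} (hL : L.Pairwise (fun p q => p.2 < q.2)) {a b : ℝ × ℝ}
    (h : Con L a b) : a.2 < b.2 ∧ ∀ r ∈ L, r.2 ≤ a.2 ∨ b.2 ≤ r.2 := by
  obtain ⟨l₁, l₂, rfl⟩ := h
  rw [List.pairwise_append] at hL
  obtain ⟨h1, h2, h3⟩ := hL
  rw [List.pairwise_cons] at h2
  obtain ⟨h4, h5⟩ := h2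
  rw [List.pairwise_cons] at h5
  refine ⟨h4 b (by simp), ?_⟩
  intro r hr
  simp only [List.mem_append, List.mem_cons] at hr
  rcases hr with hr | hr | hr | hr
  · exact Or.inl (h3 r hr a (by simp)).le
  · exact Or.inl (by rw [hr])
  · exact Or.inr (by rw [hr])
  · exact Or.inr (h5.1 r hr).le

theorem sorted_con {L : List (ℝ × ℝ)} (hL : L.Pairwise (fun p q => p.2 < q.2)) {a b : ℝ × ℝ}
    (ha : a ∈ L) (hb : b ∈ L) (hab : a.2 < b.2) (h : ∀ r ∈ L, r.2 ≤ a.2 ∨ b.2 ≤ r.2) :
    Con L a b := by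
  obtain ⟨l₁, l₂, rfl⟩ := List.append_of_mem ha
  rw [List.pairwise_append] at hL
  obtain ⟨h1, h2, h3⟩ := hL
  rw [List.pairwise_cons] at h2
  obtain ⟨h4, h5⟩ := h2
  have hbl : b ∈ l₂ := by
    simp only [List.mem_append, List.mem_cons] at hb
    rcases hb with hb | hb | hb
    · exact absurd (h3 b hb a (by simp)) (not_lt.2 hab.le)
    · rw [hb] at hab; exact absurd hab (lt_irrefl _)
    · exact hb
  cases l₂ with
  | nil => simp at hbl
  | cons r l₂ =>
    rw [List.pairwise_cons] at h5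
    rcases List.mem_cons.1 hbl with rfl | hbl
    · exact ⟨l₁, l₂, rfl⟩
    · exfalso
      have hrb := h5.1 b hbl
      have har := h4 r (by simp)
      rcases h r (by simp) with h | h
      · exact absurd har (not_lt.2 h)
      · exact absurd hrb (not_lt.2 h)

/-- end points of the bars -/
noncomputable def Ev (S : Finset (ℝ × ℝ)) : Finset ℝ :=
  S.image (fun p => p.1) ∪ S.image (fun p => p.1 + 1)

theorem left_mem_Ev {S : Finset (ℝ × ℝ)} {p : ℝ × ℝ} (hp : p ∈ S) : p.1 ∈ Ev S :=
  Finset.mem_union_left _ (Finset.mem_image_of_mem (fun p : ℝ × ℝ => p.1) hp)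

theorem right_mem_Ev {S : Finset (ℝ × ℝ)} {p : ℝ × ℝ} (hp : p ∈ S) : p.1 + 1 ∈ Ev S :=
  Finset.mem_union_right _ (Finset.mem_image_of_mem (fun p : ℝ × ℝ => p.1 + 1) hp)

theorem cur_eq {S : Finset (ℝ × ℝ)} {c c' : ℝ} (hc : c ≤ c')
    (h : ∀ e ∈ Ev S, ¬ (c < e ∧ e ≤ c')) : cur S c = cur S c' := by
  unfold cur
  congr 2
  apply Finset.filter_congr
  intro p hp
  have h1 := h _ (left_mem_Ev hp)
  have h2 := h _ (right_mem_Ev hp)
  constructor
  · rintro ⟨h3, h4⟩
    exact ⟨h3.trans hc, by by_contra h5; exact h2 ⟨h4, not_lt.1 h5⟩⟩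
  · rintro ⟨h3, h4⟩
    exact ⟨by by_contra h5; exact h1 ⟨not_le.1 h5, h3⟩, lt_of_le_of_lt hc h4⟩

/-- there is room to the right of `c` before the next end point -/
theorem exists_room (S : Finset (ℝ × ℝ)) (c : ℝ) :
    ∃ c', c < c' ∧ ∀ e ∈ Ev S, ¬ (c < e ∧ e ≤ c') := by
  by_cases h : ((Ev S).filter (fun e => c < e)).Nonempty
  · set m := ((Ev S).filter (fun e => c < e)).min' h with hm
    have hmm := Finset.min'_mem _ h
    rw [← hm, Finset.mem_filter] at hmm
    refine ⟨(c + m) / 2, by linarith [hmm.2], ?_⟩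
    rintro e he ⟨h1, h2⟩
    have : m ≤ e := Finset.min'_le _ _ (Finset.mem_filter.2 ⟨he, h1⟩)
    linarith [hmm.2]
  · rw [Finset.not_nonempty_iff_eq_empty] at h
    refine ⟨c + 1, by linarith, ?_⟩
    rintro e he ⟨h1, -⟩
    have : e ∈ (Ev S).filter (fun e => c < e) := Finset.mem_filter.2 ⟨he, h1⟩
    rw [h] at this; simp at this

theorem con_sees {S : Finset (ℝ × ℝ)} (hS : PD S) {c : ℝ} {a b : ℝ × ℝ} (h : Con (cur S c) a b) :
    Sees (S : Set (ℝ × ℝ)) a b := by
  obtain ⟨c', hc', hroom⟩ := exists_room S c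
  have ha := mem_cur.1 h.mem_left
  have hb := mem_cur.1 h.mem_right
  obtain ⟨hab, hbetw⟩ := con_of_sorted (cur_sorted hS c) h
  have hbar : ∀ r ∈ S, ∀ x, c < x → x ≤ c' → r.1 ≤ x → x ≤ r.1 + 1 →
      r ∈ cur S c ∧ c' < r.1 + 1 := by
    intro r hr x h1 h2 h3 h4
    have e1 : r.1 ≤ c := by
      by_contra h5
      exact hroom _ (left_mem_Ev hr) ⟨not_le.1 h5, h3.trans h2⟩
    have e2 : c' < r.1 + 1 := by
      by_contra h5
      exact hroom _ (right_mem_Ev hr) ⟨lt_of_lt_of_le h1 h4, not_lt.1 h5⟩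
    exact ⟨mem_cur.2 ⟨hr, e1, hc'.trans e2⟩, e2⟩
  have ea : c' < a.1 + 1 := by
    by_contra h5
    exact hroom _ (right_mem_Ev ha.1) ⟨ha.2.2, not_lt.1 h5⟩
  have eb : c' < b.1 + 1 := by
    by_contra h5
    exact hroom _ (right_mem_Ev hb.1) ⟨hb.2.2, not_lt.1 h5⟩
  refine ⟨(2 * c + c') / 3, (c + 2 * c') / 3, by linarith, ?_, ?_, ?_⟩
  · intro x hx
    exact ⟨by linarith [hx.1, ha.2.1], by linarith [hx.2]⟩
  · intro x hx
    exact ⟨by linarith [hx.1, hb.2.1], by linarith [hx.2]⟩
  · intro r hr hra hrb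
    rw [Set.disjoint_left]
    rintro ⟨x, y⟩ ⟨h1, h2, h3⟩ ⟨h4, h5⟩
    simp only at h1 h2 h3
    simp only [Set.mem_Icc] at h4 h5
    rw [min_eq_left hab.le, max_eq_right hab.le] at h5
    obtain ⟨h6, -⟩ := hbar r hr x (by linarith [h4.1]) (by linarith [h4.2]) h1 h2
    have hpw := cur_sorted hS c
    -- distinct heights
    have hdist : ∀ q ∈ cur S c, q ≠ r → q.2 ≠ r.2 := by
      intro q hq hne he
      have hq' := mem_cur.1 hq
      have hr' := mem_cur.1 h6
      have := hS q hq'.1 r hr'.1 hne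
      rw [Set.disjoint_left] at this
      exact this (a := (c, q.2)) ⟨hq'.2.1, hq'.2.2.le, rfl⟩ ⟨hr'.2.1, hr'.2.2.le, he⟩
    rcases hbetw r h6 with h7 | h7
    · exact hdist a h.mem_left (Ne.symm hra) (le_antisymm (by rw [← h3]; exact h5.1) h7)
    · exact hdist b h.mem_right (Ne.symm hrb) (le_antisymm h7 (by rw [← h3]; exact h5.2))

theorem sees_con {S : Finset (ℝ × ℝ)} (hS : PD S) {p q : ℝ × ℝ} (hp : p ∈ S) (hq : q ∈ S)
    (hpq : p ≠ q) (h : Sees (S : Set (ℝ × ℝ)) p q) :
    ∃ c, Con (cur S c) p q ∨ Con (cur S c) q p := by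
  obtain ⟨a, b, hab, h1, h2, h3⟩ := h
  have p1 := h1 (Set.left_mem_Icc.2 hab.le)
  have p2 := h1 (Set.right_mem_Icc.2 hab.le)
  have q1 := h2 (Set.left_mem_Icc.2 hab.le)
  have q2 := h2 (Set.right_mem_Icc.2 hab.le)
  have hpc : p ∈ cur S a := mem_cur.2 ⟨hp, p1.1, lt_of_lt_of_le hab p2.2⟩
  have hqc : q ∈ cur S a := mem_cur.2 ⟨hq, q1.1, lt_of_lt_of_le hab q2.2⟩
  have hne : p.2 ≠ q.2 := by
    intro he
    have := hS p hp q hq hpq
    rw [Set.disjoint_left] at this
    exact this (a := (a, p.2)) ⟨p1.1, p1.2, rfl⟩ ⟨q1.1, q1.2, he⟩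
  have hbt : ∀ r ∈ cur S a, r ≠ p → r ≠ q → r.2 < min p.2 q.2 ∨ max p.2 q.2 < r.2 := by
    intro r hr hrp hrq
    have hr' := mem_cur.1 hr
    have := h3 r hr'.1 hrp hrq
    rw [Set.disjoint_left] at this
    by_contra hcon
    push Not at hcon
    exact this (a := (a, r.2)) ⟨hr'.2.1, hr'.2.2.le, rfl⟩
      ⟨Set.left_mem_Icc.2 hab.le, ⟨hcon.1, hcon.2⟩⟩
  refine ⟨a, ?_⟩
  rcases lt_or_gt_of_ne hne with hlt | hlt
  · left
    apply sorted_con (cur_sorted hS a) hpc hqc hlt
    intro r hr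
    by_cases hrp : r = p
    · left; rw [hrp]
    by_cases hrq : r = q
    · right; rw [hrq]
    rcases hbt r hr hrp hrq with h | h
    · left; rw [min_eq_left hlt.le] at h; exact h.le
    · right; rw [max_eq_right hlt.le] at h; exact h.le
  · right
    apply sorted_con (cur_sorted hS a) hqc hpc hlt
    intro r hr
    by_cases hrp : r = p
    · right; rw [hrp]
    by_cases hrq : r = q
    · left; rw [hrq]
    rcases hbt r hr hrp hrq with h | h
    · left; rw [min_eq_right hlt.le] at h; exact h.le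
    · right; rw [max_eq_left hlt.le] at h; exact h.le

/-- the whole sweep -/
theorem sweep {own : ℝ × ℝ → V} {f : ℝ × ℝ → Bool} {S : Finset (ℝ × ℝ)} (hS : PD S)
    (hleg : ∀ c, Leg own f (cur S c)) (n : ℕ) : ∀ c : ℝ, ((Ev S).filter (fun e => e ≤ c)).card ≤ n →
    ∃ (A : Set ((ℝ × ℝ) × (ℝ × ℝ))) (Tp Bt : Set (ℝ × ℝ)),
      Reach own f {p | p ∈ S ∧ p.1 ≤ c} A Tp Bt (cur S c) ∧
      ∀ c' ≤ c, (∀ x y, Con (cur S c') x y → (x, y) ∈ A) ∧
        (∀ x, (cur S c').getLast? = some x → x ∈ Tp) ∧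
        (∀ x, (cur S c').head? = some x → x ∈ Bt) := by
  induction n with
  | zero =>
    intro c hc
    have he : (Ev S).filter (fun e => e ≤ c) = ∅ := by
      rw [← Finset.card_eq_zero]; omega
    have hno : ∀ p ∈ S, ¬ p.1 ≤ c := by
      intro p hp hpc
      have : p.1 ∈ (Ev S).filter (fun e => e ≤ c) := Finset.mem_filter.2 ⟨left_mem_Ev hp, hpc⟩
      rw [he] at this; simp at this
    have hcur : ∀ c' ≤ c, cur S c' = [] := by
      intro c' hc'
      rw [List.eq_nil_iff_forall_not_mem]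
      intro p hp
      have := mem_cur.1 hp
      exact hno p this.1 (this.2.1.trans hc')
    have hW : {p | p ∈ S ∧ p.1 ≤ c} = ∅ := by
      ext p
      simp only [Set.mem_ofPred_eq, Set.mem_empty_iff_false, iff_false, not_and]
      exact hno p
    refine ⟨∅, ∅, ∅, ?_, ?_⟩
    · rw [hW, hcur c le_rfl]; exact Reach.start
    · intro c' hc'
      rw [hcur c' hc']
      exact ⟨fun x y h => absurd h not_con_nil, by simp, by simp⟩
  | succ n ih =>
    intro c hc
    by_cases hne : ((Ev S).filter (fun e => e ≤ c)).Nonempty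
    swap
    · apply ih c
      rw [Finset.not_nonempty_iff_eq_empty] at hne
      rw [hne]; simp
    set c₀ := ((Ev S).filter (fun e => e ≤ c)).max' hne with hc₀
    have hc₀m := Finset.max'_mem _ hne
    rw [← hc₀, Finset.mem_filter] at hc₀m
    have hmax : ∀ e ∈ Ev S, e ≤ c → e ≤ c₀ := fun e he hec =>
      Finset.le_max' _ _ (Finset.mem_filter.2 ⟨he, hec⟩)
    obtain ⟨c₁, hc₁, hc₁r⟩ : ∃ c₁ < c₀, ∀ e ∈ Ev S, ¬ (c₁ < e ∧ e < c₀) := by
      by_cases h : ((Ev S).filter (fun e => e < c₀)).Nonempty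
      · have hm := Finset.max'_mem _ h
        rw [Finset.mem_filter] at hm
        refine ⟨_, hm.2, ?_⟩
        rintro e he ⟨h1, h2⟩
        exact absurd (Finset.le_max' _ e (Finset.mem_filter.2 ⟨he, h2⟩)) (not_le.2 h1)
      · rw [Finset.not_nonempty_iff_eq_empty] at h
        refine ⟨c₀ - 1, by linarith, ?_⟩
        rintro e he ⟨-, h2⟩
        have : e ∈ (Ev S).filter (fun e => e < c₀) := Finset.mem_filter.2 ⟨he, h2⟩
        rw [h] at this; simp at this
    have hcard : ((Ev S).filter (fun e => e ≤ c₁)).card ≤ n := by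
      have : ((Ev S).filter (fun e => e ≤ c₁)) ⊂ ((Ev S).filter (fun e => e ≤ c)) := by
        rw [Finset.ssubset_iff_of_subset]
        · exact ⟨c₀, Finset.mem_filter.2 hc₀m, fun h => by
            rw [Finset.mem_filter] at h; exact absurd h.2 (not_le.2 hc₁)⟩
        · intro e he
          rw [Finset.mem_filter] at he ⊢
          exact ⟨he.1, he.2.trans (hc₁.le.trans hc₀m.2)⟩
      have := Finset.card_lt_card this
      omega
    obtain ⟨A, Tp, Bt, hR, hall⟩ := ih c₁ hcard
    have hfresh : ∀ x ∈ cur S c₀, x ∉ cur S c₁ → x ∉ {p | p ∈ S ∧ p.1 ≤ c₁} := by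
      rintro x hx hx1 ⟨hxS, hxc⟩
      have hx' := mem_cur.1 hx
      exact hx1 (mem_cur.2 ⟨hxS, hxc, lt_trans hc₁ hx'.2.2⟩)
    obtain ⟨A', Tp', Bt', h1, h2, h3, h4⟩ := Reach.many (fun p : ℝ × ℝ => p.2)
      ((cur S c₁).length + (cur S c₀).length) _ _ _ _ [] (cur S c₁) (cur S c₀) le_rfl
      (by simpa using hR) (by simpa using cur_sorted hS c₁) (by simpa using cur_sorted hS c₀)
      (by simpa using hleg c₀) hfresh
    rw [List.nil_append] at h1
    have hcc : cur S c₀ = cur S c := cur_eq hc₀m.2 (fun e he h => by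
      exact absurd (hmax e he h.2) (not_le.2 h.1))
    have hWeq : {p | p ∈ S ∧ p.1 ≤ c₁} ∪ {x | x ∈ cur S c₀} = {p | p ∈ S ∧ p.1 ≤ c} := by
      ext p
      simp only [Set.mem_union, Set.mem_ofPred_eq, mem_cur]
      constructor
      · rintro (⟨h5, h6⟩ | ⟨h5, h6, -⟩)
        · exact ⟨h5, h6.trans (hc₁.le.trans hc₀m.2)⟩
        · exact ⟨h5, h6.trans hc₀m.2⟩
      · rintro ⟨h5, h6⟩
        have h7 := hmax _ (left_mem_Ev h5) h6
        by_cases h8 : p.1 ≤ c₁
        · exact Or.inl ⟨h5, h8⟩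
        · right
          have h9 : p.1 = c₀ := by
            rcases lt_or_eq_of_le h7 with h | h
            · exact absurd ⟨not_le.1 h8, h⟩ (hc₁r _ (left_mem_Ev h5))
            · exact h
          exact ⟨h5, h7, by rw [← h9]; linarith⟩
    rw [hWeq, hcc] at h1
    refine ⟨A', Tp', Bt', h1, ?_⟩
    have hF := h1.facts
    intro c' hc'
    by_cases h5 : c₀ ≤ c'
    · have : cur S c' = cur S c := by
        apply cur_eq hc'
        rintro e he ⟨h6, h7⟩
        exact absurd (hmax e he h7) (not_le.2 (lt_of_le_of_lt h5 h6))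
      rw [this]
      exact ⟨hF.con, hF.last, hF.head⟩
    · push Not at h5
      by_cases h6 : c' ≤ c₁
      · obtain ⟨g1, g2, g3⟩ := hall c' h6
        exact ⟨fun x y h => h2 (g1 x y h), fun x h => h3 (g2 x h), fun x h => h4 (g3 x h)⟩
      · push Not at h6
        have : cur S c₁ = cur S c' := by
          apply cur_eq h6.le
          rintro e he ⟨h7, h8⟩
          exact hc₁r e he ⟨h7, lt_of_le_of_lt h8 h5⟩
        obtain ⟨g1, g2, g3⟩ := hall c₁ le_rfl
        rw [this] at g1 g2 g3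
        exact ⟨fun x y h => h2 (g1 x y h), fun x h => h3 (g2 x h), fun x h => h4 (g3 x h)⟩

end Pool.Agent.UBV
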